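import Mathlib

/-!
# Continuous logic for Keisler randomizations: definitions

We set up continuous first-order logic for the two-sorted signature of the randomization of a
first-order theory, complete types and the metric on types, and the typical models.
-/

namespace Pool.Agent.Helper666.Rand

open MeasureTheory
open scoped ENNReal symmDiff FirstOrder

/-! ## Terms and formulas -/

/-- Terms of the sort of events. The variables of the sort of random elements are indexed by `κ`,
those of the sort of events by `β`. For every formula `φ(x₀, …, x_{n-1})` of `L` there is a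
function symbol `⟦φ(·)⟧` from random elements to events; the other function symbols are the
Boolean operations. (There are no function symbols with values random elements.) -/
inductive BTerm (L : FirstOrder.Language.{0, 0}) (κ β : Type) : Type
  | var (b : β) : BTerm L κ β
  | ev {n : ℕ} (φ : L.Formula (Fin n)) (x : Fin n → κ) : BTerm L κ β
  | top : BTerm L κ β
  | bot : BTerm L κ β
  | compl (s : BTerm L κ β) : BTerm L κ β
  | inf (s t : BTerm L κ β) : BTerm L κ β
  | sup (s t : BTerm L κ β) : BTerm L κ β

/-- Continuous formulas of the randomization signature, with values in `[0, 1]`. The free variables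
are indexed by `κ` (random elements) and `β` (events); `CFormula L κ β m n` has in addition `m`
bound variables for random elements and `n` for events. Atomic formulas: the measure of an event
and the two metrics. Connectives: all continuous functions `[0,1]^k → [0,1]`.
Quantifiers: supremum and infimum over each sort. -/
inductive CFormula (L : FirstOrder.Language.{0, 0}) (κ β : Type) : ℕ → ℕ → Type
  | mu {m n : ℕ} (t : BTerm L (κ ⊕ Fin m) (β ⊕ Fin n)) : CFormula L κ β m n
  | distK {m n : ℕ} (x y : κ ⊕ Fin m) : CFormula L κ β m n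
  | distB {m n : ℕ} (s t : BTerm L (κ ⊕ Fin m) (β ⊕ Fin n)) : CFormula L κ β m n
  | conn {m n : ℕ} (k : ℕ) (u : C(Fin k → unitInterval, unitInterval)) (φ : Fin k → CFormula L κ β m n) :
      CFormula L κ β m n
  | supK {m n : ℕ} (φ : CFormula L κ β (m + 1) n) : CFormula L κ β m n
  | infK {m n : ℕ} (φ : CFormula L κ β (m + 1) n) : CFormula L κ β m n
  | supB {m n : ℕ} (φ : CFormula L κ β m (n + 1)) : CFormula L κ β m n
  | infB {m n : ℕ} (φ : CFormula L κ β m (n + 1)) : CFormula L κ β m n

/-! ## Structures -/

/-- Pre-structures for the randomization signature: two sorts `K` (random elements) and `B`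
(events) with pseudometrics bounded by one, and interpretations of the symbols which are
1-Lipschitz in each argument. -/
structure PreStr (L : FirstOrder.Language.{0, 0}) where
  /-- random elements -/
  K : Type
  /-- events -/
  B : Type
  metricK : PseudoMetricSpace K
  metricB : PseudoMetricSpace B
  nonemptyK : Nonempty K
  distK_le_one : ∀ x y : K, dist x y ≤ 1
  distB_le_one : ∀ x y : B, dist x y ≤ 1
  /-- interpretation of `⟦φ(·)⟧` -/
  ev : ∀ {n : ℕ}, L.Formula (Fin n) → (Fin n → K) → B
  top : B
  bot : B
  compl : B → B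
  inf : B → B → B
  sup : B → B → B
  /-- the measure of an event -/
  mu : B → unitInterval
  ev_lip : ∀ {n : ℕ} (φ : L.Formula (Fin n)) (v w : Fin n → K),
    dist (ev φ v) (ev φ w) ≤ ∑ i, dist (v i) (w i)
  compl_lip : ∀ x y : B, dist (compl x) (compl y) ≤ dist x y
  inf_lip : ∀ x y x' y' : B, dist (inf x y) (inf x' y') ≤ dist x x' + dist y y'
  sup_lip : ∀ x y x' y' : B, dist (sup x y) (sup x' y') ≤ dist x x' + dist y y'
  mu_lip : ∀ x y : B, dist (mu x) (mu y) ≤ dist x y

attribute [instance] PreStr.metricK PreStr.metricB PreStr.nonemptyK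

variable {L : FirstOrder.Language.{0, 0}}

/-- A structure (in the sense of continuous logic): both sorts are complete metric spaces. -/
structure PreStr.IsStructure (N : PreStr L) : Prop where
  sepK : ∀ x y : N.K, dist x y = 0 → x = y
  sepB : ∀ x y : N.B, dist x y = 0 → x = y
  completeK : CompleteSpace N.K
  completeB : CompleteSpace N.B

/-- The distance of `K` as an element of `[0, 1]`. -/
def PreStr.dK (N : PreStr L) (x y : N.K) : unitInterval := ⟨dist x y, dist_nonneg, N.distK_le_one x y⟩

/-- The distance of `B` as an element of `[0, 1]`. -/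
def PreStr.dB (N : PreStr L) (x y : N.B) : unitInterval := ⟨dist x y, dist_nonneg, N.distB_le_one x y⟩

/-- Value of a term. -/
def BTerm.eval (N : PreStr L) {κ β : Type} (v : κ → N.K) (w : β → N.B) : BTerm L κ β → N.B
  | .var b => w b
  | .ev φ x => N.ev φ (fun i => v (x i))
  | .top => N.top
  | .bot => N.bot
  | .compl s => N.compl (s.eval N v w)
  | .inf s t => N.inf (s.eval N v w) (t.eval N v w)
  | .sup s t => N.sup (s.eval N v w) (t.eval N v w)

/-- Value of a continuous formula: `v`, `w` assign values to the free variables, `x`, `y` to the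
bound ones. -/
noncomputable def CFormula.val (N : PreStr L) {κ β : Type} (v : κ → N.K) (w : β → N.B) :
    ∀ {m n : ℕ}, CFormula L κ β m n → (Fin m → N.K) → (Fin n → N.B) → unitInterval
  | _, _, .mu t, x, y => N.mu (t.eval N (Sum.elim v x) (Sum.elim w y))
  | _, _, .distK a b, x, _ => N.dK (Sum.elim v x a) (Sum.elim v x b)
  | _, _, .distB s t, x, y =>
      N.dB (s.eval N (Sum.elim v x) (Sum.elim w y)) (t.eval N (Sum.elim v x) (Sum.elim w y))
  | _, _, .conn _ u φ, x, y => u (fun i => (φ i).val N v w x y)
  | _, _, .supK φ, x, y => ⨆ a : N.K, φ.val N v w (Fin.snoc x a) y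
  | _, _, .infK φ, x, y => ⨅ a : N.K, φ.val N v w (Fin.snoc x a) y
  | _, _, .supB φ, x, y => ⨆ b : N.B, φ.val N v w x (Fin.snoc y b)
  | _, _, .infB φ, x, y => ⨅ b : N.B, φ.val N v w x (Fin.snoc y b)

/-! ## Theories, types, stability -/

/-- Formulas without bound variables outside quantifiers, free variables indexed by `κ`, `β`. -/
abbrev CForm (L : FirstOrder.Language.{0, 0}) (κ β : Type) : Type := CFormula L κ β 0 0

/-- Value of a formula at an assignment of its free variables. -/
noncomputable abbrev CForm.value {κ β : Type} (φ : CForm L κ β) (N : PreStr L) (v : κ → N.K)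
    (w : β → N.B) : unitInterval :=
  CFormula.val N v w φ Fin.elim0 Fin.elim0

/-- A complete continuous theory, given by the value of every sentence. -/
abbrev CTheory (L : FirstOrder.Language.{0, 0}) : Type := CForm L Empty Empty → unitInterval

/-- The complete theory of a (pre-)structure. -/
noncomputable def PreStr.theory (N : PreStr L) : CTheory L :=
  fun σ => σ.value N Empty.elim Empty.elim

/-- `N'`, with the parameters from `AK`, `AB` interpreted by `iK`, `iB`, has the same complete
theory, in the signature with constants for the parameters, as `N`. -/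
def SameTheoryOver (N : PreStr L) (AK : Set N.K) (AB : Set N.B) (N' : PreStr L) (iK : AK → N'.K)
    (iB : AB → N'.B) : Prop :=
  ∀ σ : CForm L AK AB, σ.value N' iK iB = σ.value N Subtype.val Subtype.val

/-- The complete type over the parameters of a tuple of `m` random elements and `n` events, as the
function giving the values of all formulas with parameters. -/
noncomputable def tp {κ β : Type} (N : PreStr L) (iK : κ → N.K) (iB : β → N.B) {m n : ℕ}
    (a : Fin m → N.K) (b : Fin n → N.B) : CForm L (κ ⊕ Fin m) (β ⊕ Fin n) → unitInterval :=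
  fun φ => φ.value N (Sum.elim iK a) (Sum.elim iB b)

/-- The space of complete types of `m` random elements and `n` events over the parameter sets
`AK`, `AB` in `N`: the types realized in structures with the same theory over the parameters. -/
def TypeSpace (N : PreStr L) (AK : Set N.K) (AB : Set N.B) (m n : ℕ) :
    Set (CForm L (AK ⊕ Fin m) (AB ⊕ Fin n) → unitInterval) :=
  {p | ∃ (N' : PreStr L) (iK : AK → N'.K) (iB : AB → N'.B), N'.IsStructure ∧
    SameTheoryOver N AK AB N' iK iB ∧ ∃ (a : Fin m → N'.K) (b : Fin n → N'.B),
      tp N' iK iB a b = p}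

/-- The distance between types: the infimum of the distances of realizations. -/
noncomputable def typeDist (N : PreStr L) (AK : Set N.K) (AB : Set N.B) {m n : ℕ}
    (p q : CForm L (AK ⊕ Fin m) (AB ⊕ Fin n) → unitInterval) : ℝ≥0∞ :=
  ⨅ (N' : PreStr L) (iK : AK → N'.K) (iB : AB → N'.B) (_ : N'.IsStructure)
    (_ : SameTheoryOver N AK AB N' iK iB) (a : Fin m → N'.K) (b : Fin n → N'.B)
    (a' : Fin m → N'.K) (b' : Fin n → N'.B) (_ : tp N' iK iB a b = p)
    (_ : tp N' iK iB a' b' = q), edist (a, b) (a', b')

/-- The set `S` has density character at most `c` with respect to the distance `ρ`. -/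
def DensityLE {X : Type} (ρ : X → X → ℝ≥0∞) (S : Set X) (c : Cardinal.{0}) : Prop :=
  ∃ D ⊆ S, Cardinal.mk D ≤ c ∧ ∀ p ∈ S, ∀ ε : ℝ≥0∞, 0 < ε → ∃ q ∈ D, ρ p q < ε

/-- `c`-stability of a complete continuous theory: over every set of parameters of density
character at most `c` in a model, every type space has density character at most `c`. -/
def ContStable (t : CTheory L) (c : Cardinal.{0}) : Prop :=
  ∀ N : PreStr L, N.IsStructure → N.theory = t → ∀ (AK : Set N.K) (AB : Set N.B),
    DensityLE edist AK c → DensityLE edist AB c →
      ∀ m n : ℕ, DensityLE (typeDist N AK AB) (TypeSpace N AK AB m n) c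

/-- `c`-stability of a first-order theory: over every set of at most `c` parameters in a model
there are at most `c` complete `n`-types. -/
def FOStable (T : L.Theory) (c : Cardinal.{0}) : Prop :=
  ∀ (M : Type) [L.Structure M] [Nonempty M], M ⊨ T → ∀ A : Set M, Cardinal.mk A ≤ c → ∀ n : ℕ,
    Cardinal.mk ((L[[A]].completeTheory M).CompleteType (Fin n)) ≤ c

/-! ## Typical models of the randomization -/

section Typical

variable {Ω : Type} [MeasurableSpace Ω]

set_option linter.unusedVariables false in
/-- Measurable maps `Ω → M` with countable range (`M` carries the discrete sigma-algebra). -/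
def RandElt (μ : Measure Ω) (M : Type) : Type :=
  {f : Ω → M // (Set.range f).Countable ∧ ∀ m : M, MeasurableSet (f ⁻¹' {m})}

variable {μ : Measure Ω} {M : Type}

theorem RandElt.measurable_event {n : ℕ} (P : (Fin n → M) → Prop) (v : Fin n → RandElt μ M) :
    MeasurableSet {ω | P (fun i => (v i).1 ω)} := by
  classical
  have h1 : (Set.pi Set.univ (fun i => Set.range (v i).1)).Countable :=
    Set.countable_univ_pi (fun i => (v i).2.1)
  have h2 : {ω | P (fun i => (v i).1 ω)} =
      ⋃ w ∈ {w ∈ Set.pi Set.univ (fun i => Set.range (v i).1) | P w},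
        ⋂ i, (v i).1 ⁻¹' {w i} := by
    ext ω
    simp only [Set.mem_ofPred_eq, Set.mem_iUnion, Set.mem_iInter, Set.mem_preimage,
      Set.mem_singleton_iff, exists_prop]
    constructor
    · intro h
      exact ⟨fun i => (v i).1 ω, ⟨fun i _ => ⟨ω, rfl⟩, h⟩, fun i => rfl⟩
    · rintro ⟨w, ⟨-, hw⟩, h⟩
      have : w = fun i => (v i).1 ω := funext fun i => (h i).symm
      rwa [← this]
  rw [h2]
  refine MeasurableSet.biUnion (h1.mono (Set.sep_subset _ _)) fun w _ => ?_
  exact MeasurableSet.iInter fun i => (v i).2.2 (w i)

theorem RandElt.measurable_ne (f g : RandElt μ M) : MeasurableSet {ω | f.1 ω ≠ g.1 ω} := by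
  have := RandElt.measurable_event (μ := μ) (n := 2) (fun w : Fin 2 → M => w 0 ≠ w 1) ![f, g]
  simpa using this

/-- The distance `μ {f ≠ g}` between random elements. -/
noncomputable instance [IsProbabilityMeasure μ] : PseudoMetricSpace (RandElt μ M) where
  dist f g := μ.real {ω | f.1 ω ≠ g.1 ω}
  dist_self f := by simp
  dist_comm f g := by simp only [ne_comm]
  dist_triangle f g h := by
    refine (measureReal_mono ?_).trans (measureReal_union_le _ _)
    intro ω hω
    by_contra hcon
    simp only [Set.mem_union, Set.mem_ofPred_eq, not_or, not_not] at hcon hω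
    exact hω (hcon.1.trans hcon.2)

theorem RandElt.dist_def [IsProbabilityMeasure μ] (f g : RandElt μ M) :
    dist f g = μ.real {ω | f.1 ω ≠ g.1 ω} := rfl

/-- An atomless measure: every measurable set of positive measure has a measurable subset of
strictly smaller positive measure. -/
def Atomless (μ : Measure Ω) : Prop :=
  ∀ E : Set Ω, MeasurableSet E → 0 < μ E → ∃ F ⊆ E, MeasurableSet F ∧ 0 < μ F ∧ μ F < μ E

theorem event_dist_le [IsProbabilityMeasure μ] [L.Structure M] {n : ℕ} (φ : L.Formula (Fin n))
    (v w : Fin n → RandElt μ M) :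
    μ.real ({ω | φ.Realize (fun i => (v i).1 ω)} ∆ {ω | φ.Realize (fun i => (w i).1 ω)}) ≤
      ∑ i, μ.real {ω | (v i).1 ω ≠ (w i).1 ω} := by
  refine (measureReal_mono (s₂ := ⋃ i, {ω | (v i).1 ω ≠ (w i).1 ω}) ?_).trans
    (measureReal_iUnion_fintype_le _)
  intro ω hω
  by_contra hcon
  simp only [Set.mem_iUnion, Set.mem_ofPred_eq, not_exists, not_not] at hcon
  have h1 : (fun i => (v i).1 ω) = fun i => (w i).1 ω := funext hcon
  rw [Set.mem_symmDiff] at hω
  simp only [Set.mem_ofPred_eq, h1] at hω
  tauto

/-- The pre-structure of random elements of `M` and measurable events. -/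
noncomputable def typicalPre (μ : Measure Ω) [IsProbabilityMeasure μ] (M : Type) [L.Structure M]
    [Nonempty M] : PreStr L where
  K := RandElt μ M
  B := MeasuredSets μ
  metricK := inferInstance
  metricB := inferInstance
  nonemptyK := ⟨⟨fun _ => Classical.arbitrary M, (Set.countable_singleton _).mono
    Set.range_const_subset, fun m => MeasurableSet.const _⟩⟩
  distK_le_one _ _ := measureReal_le_one
  distB_le_one _ _ := measureReal_le_one
  ev φ v := ⟨{ω | φ.Realize (fun i => (v i).1 ω)}, RandElt.measurable_event _ v⟩
  top := ⟨Set.univ, MeasurableSet.univ⟩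
  bot := ⟨∅, MeasurableSet.empty⟩
  compl E := ⟨(E : Set Ω)ᶜ, E.2.compl⟩
  inf E F := ⟨(E : Set Ω) ∩ F, E.2.inter F.2⟩
  sup E F := ⟨(E : Set Ω) ∪ F, E.2.union F.2⟩
  mu E := ⟨μ.real E, measureReal_nonneg, measureReal_le_one⟩
  ev_lip φ v w := event_dist_le φ v w
  compl_lip E F := by
    change μ.real ((E : Set Ω)ᶜ ∆ (F : Set Ω)ᶜ) ≤ μ.real ((E : Set Ω) ∆ F)
    refine measureReal_mono ?_
    intro ω hω
    rw [Set.mem_symmDiff] at hω ⊢
    change (ω ∈ (E : Set Ω)ᶜ ∧ ω ∉ (F : Set Ω)ᶜ) ∨ (ω ∈ (F : Set Ω)ᶜ ∧ ω ∉ (E : Set Ω)ᶜ) at hω
    simp only [Set.mem_compl_iff, not_not] at hω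
    tauto
  inf_lip E F E' F' := by
    simp only [MeasuredSets.dist_def]
    refine (measureReal_mono ?_).trans (measureReal_union_le _ _)
    intro ω hω
    simp only [Set.mem_union, Set.mem_symmDiff] at hω ⊢
    change (ω ∈ (E : Set Ω) ∩ F ∧ ω ∉ (E' : Set Ω) ∩ F') ∨
      (ω ∈ (E' : Set Ω) ∩ F' ∧ ω ∉ (E : Set Ω) ∩ F) at hω
    simp only [Set.mem_inter_iff] at hω
    tauto
  sup_lip E F E' F' := by
    simp only [MeasuredSets.dist_def]
    refine (measureReal_mono ?_).trans (measureReal_union_le _ _)
    intro ω hω
    simp only [Set.mem_union, Set.mem_symmDiff] at hω ⊢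
    change (ω ∈ (E : Set Ω) ∪ F ∧ ω ∉ (E' : Set Ω) ∪ F') ∨
      (ω ∈ (E' : Set Ω) ∪ F' ∧ ω ∉ (E : Set Ω) ∪ F) at hω
    simp only [Set.mem_union] at hω
    tauto
  mu_lip E F := abs_measureReal_sub_le_measureReal_symmDiff E.2.nullMeasurableSet
    F.2.nullMeasurableSet

/-- A representative of a point of the separation quotient. -/
noncomputable def rep {X : Type} [TopologicalSpace X] (x : SeparationQuotient X) : X :=
  Function.surjInv SeparationQuotient.surjective_mk x

theorem mk_rep {X : Type} [TopologicalSpace X] (x : SeparationQuotient X) :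
    SeparationQuotient.mk (rep x) = x :=
  Function.surjInv_eq SeparationQuotient.surjective_mk x

theorem dist_rep {X : Type} [PseudoMetricSpace X] (x y : SeparationQuotient X) :
    dist (rep x) (rep y) = dist x y := by
  rw [← SeparationQuotient.dist_mk, mk_rep, mk_rep]

/-- Identification of elements at distance zero. -/
noncomputable def PreStr.quotient (N : PreStr L) : PreStr L where
  K := SeparationQuotient N.K
  B := SeparationQuotient N.B
  metricK := inferInstance
  metricB := inferInstance
  nonemptyK := inferInstance
  distK_le_one := by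
    intro x y
    obtain ⟨x, rfl⟩ := SeparationQuotient.surjective_mk x
    obtain ⟨y, rfl⟩ := SeparationQuotient.surjective_mk y
    exact N.distK_le_one x y
  distB_le_one := by
    intro x y
    obtain ⟨x, rfl⟩ := SeparationQuotient.surjective_mk x
    obtain ⟨y, rfl⟩ := SeparationQuotient.surjective_mk y
    exact N.distB_le_one x y
  ev φ v := SeparationQuotient.mk (N.ev φ (fun i => rep (v i)))
  top := SeparationQuotient.mk N.top
  bot := SeparationQuotient.mk N.bot
  compl x := SeparationQuotient.mk (N.compl (rep x))
  inf x y := SeparationQuotient.mk (N.inf (rep x) (rep y))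
  sup x y := SeparationQuotient.mk (N.sup (rep x) (rep y))
  mu x := N.mu (rep x)
  ev_lip φ v w := by
    rw [SeparationQuotient.dist_mk]
    refine (N.ev_lip φ _ _).trans (le_of_eq (Finset.sum_congr rfl fun i _ => ?_))
    rw [dist_rep]
  compl_lip x y := by
    rw [SeparationQuotient.dist_mk, ← dist_rep x y]
    exact N.compl_lip _ _
  inf_lip x y x' y' := by
    rw [SeparationQuotient.dist_mk, ← dist_rep x x', ← dist_rep y y']
    exact N.inf_lip _ _ _ _
  sup_lip x y x' y' := by
    rw [SeparationQuotient.dist_mk, ← dist_rep x x', ← dist_rep y y']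
    exact N.sup_lip _ _ _ _
  mu_lip x y := by
    rw [← dist_rep x y]
    exact N.mu_lip _ _

/-- The typical model: random elements and events modulo null sets. -/
noncomputable def typical (μ : Measure Ω) [IsProbabilityMeasure μ] (M : Type) [L.Structure M]
    [Nonempty M] : PreStr L := (typicalPre μ M).quotient

end Typical

/-- `t` is the randomization theory `T^R`, that is, the complete continuous theory of a typical
model, built from a model `M` of `T` and an atomless probability space. -/
def IsRandomizationOf (T : L.Theory) (t : CTheory L) : Prop :=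
  ∃ (M : Type) (_ : L.Structure M) (_ : Nonempty M) (Ω : Type) (_ : MeasurableSpace Ω)
    (μ : Measure Ω) (_ : IsProbabilityMeasure μ), M ⊨ T ∧ Atomless μ ∧ t = (typical μ M).theory

end Pool.Agent.Helper666.Rand
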