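import Pool.Agent.Helper666.Rand.Defs

namespace Pool.Agent.Helper666.Rand

open FirstOrder FirstOrder.Language
open scoped FirstOrder

/-- Extending a finite partial bijection that respects an equivalence relation. -/
theorem exists_perm {ι M : Type} (R : M → M → Prop) (hR : Equivalence R) (a b : ι → M)
    (hab : ∀ i j, a i = a j ↔ b i = b j) (hr : ∀ i, R (a i) (b i)) (s : Finset ι) :
    ∃ σ : Equiv.Perm M, (∀ i ∈ s, σ (a i) = b i) ∧ ∀ x, R x (σ x) := by
  classical
  induction s using Finset.induction_on with
  | empty => exact ⟨1, by simp, fun x => hR.refl x⟩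
  | insert i s _ ih =>
    obtain ⟨σ, h1, h2⟩ := ih
    refine ⟨Equiv.swap (σ (a i)) (b i) * σ, ?_, ?_⟩
    · intro j hj
      rw [Equiv.Perm.mul_apply]
      rcases Finset.mem_insert.1 hj with rfl | hj
      · rw [Equiv.swap_apply_left]
      · rw [h1 j hj]
        by_cases hji : b j = b i
        · have h3 : a j = a i := (hab j i).2 hji
          rw [← h3, h1 j hj, hji, Equiv.swap_self]
          rfl
        · have h3 : a j ≠ a i := fun h => hji ((hab j i).1 h)
          have h4 : b j ≠ σ (a i) := by
            rw [← h1 j hj]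
            exact fun h => h3 (σ.injective h)
          exact Equiv.swap_apply_of_ne_of_ne h4 hji
    · intro x
      rw [Equiv.Perm.mul_apply]
      have h5 : R (σ (a i)) (b i) := hR.trans (hR.symm (h2 (a i))) (hr i)
      refine hR.trans (h2 x) ?_
      by_cases hx : σ x = σ (a i)
      · rw [hx, Equiv.swap_apply_left]
        exact h5
      · by_cases hx' : σ x = b i
        · rw [hx', Equiv.swap_apply_right]
          exact hR.symm h5
        · rw [Equiv.swap_apply_of_ne_of_ne hx hx']
          exact hR.refl _

section Unary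

variable {L' : FirstOrder.Language.{0, 0}} (hF : ∀ k, IsEmpty (L'.Functions (k + 1)))
  (hRel : ∀ k, k ≠ 1 → IsEmpty (L'.Relations k))

/-- value of a constant -/
abbrev cval (N : Type) [L'.Structure N] (c : L'.Functions 0) : N := Structure.funMap c Fin.elim0

include hF in
theorem term_dep {α : Type} (t : L'.Term α) : ∃ E : Finset (L'.Functions 0),
    ∀ (N : Type) [L'.Structure N] (σ : N → N), (∀ c ∈ E, σ (cval N c) = cval N c) →
      ∀ v : α → N, t.realize (fun i => σ (v i)) = σ (t.realize v) := by
  classical
  cases t with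
  | var a => exact ⟨∅, fun N _ σ _ v => rfl⟩
  | @func l f ts =>
    cases l with
    | zero =>
      refine ⟨{f}, fun N _ σ h v => ?_⟩
      have h1 := h f (Finset.mem_singleton_self f)
      have e1 : ∀ w : α → N, (Term.func f ts).realize w = cval N f := by
        intro w
        rw [Term.realize_func]
        congr 1
        exact funext fun i => i.elim0
      rw [e1, e1, h1]
    | succ k => exact ((hF k).false f).elim

include hF hRel in
/-- Every formula depends on finitely many symbols only. -/
theorem formula_dep {α : Type} {k : ℕ} (ψ : L'.BoundedFormula α k) :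
    ∃ (F : Finset (L'.Relations 1)) (E : Finset (L'.Functions 0)),
      ∀ (N : Type) [L'.Structure N] (σ : Equiv.Perm N), (∀ c ∈ E, σ (cval N c) = cval N c) →
        (∀ r ∈ F, ∀ x : N, Structure.RelMap r ![σ x] ↔ Structure.RelMap r ![x]) →
        ∀ (v : α → N) (xs : Fin k → N),
          ψ.Realize (fun i => σ (v i)) (fun i => σ (xs i)) ↔ ψ.Realize v xs := by
  classical
  have he : ∀ {k : ℕ} {N : Type} (σ : Equiv.Perm N) (v : α → N) (xs : Fin k → N),
      (Sum.elim (fun i => σ (v i)) (fun i => σ (xs i)) : α ⊕ Fin k → N) =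
        fun i => σ (Sum.elim v xs i) := by
    intro k N σ v xs
    funext i
    cases i <;> rfl
  induction ψ with
  | falsum => exact ⟨∅, ∅, fun N _ σ _ _ v xs => Iff.rfl⟩
  | equal t₁ t₂ =>
    obtain ⟨E1, h1⟩ := term_dep hF t₁
    obtain ⟨E2, h2⟩ := term_dep hF t₂
    refine ⟨∅, E1 ∪ E2, fun N _ σ hE _ v xs => ?_⟩
    simp only [BoundedFormula.Realize]
    rw [he, h1 N σ (fun c hc => hE c (Finset.mem_union_left _ hc)),
      h2 N σ (fun c hc => hE c (Finset.mem_union_right _ hc)), σ.injective.eq_iff]
  | @rel k l R ts =>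
    by_cases hl : l = 1
    · subst hl
      obtain ⟨E, h1⟩ := term_dep hF (ts 0)
      refine ⟨{R}, E, fun N _ σ hE hFR v xs => ?_⟩
      simp only [BoundedFormula.Realize]
      have h2 := hFR R (Finset.mem_singleton_self R) ((ts 0).realize (Sum.elim v xs))
      have h3 : (fun i => (ts i).realize (Sum.elim (fun i => σ (v i)) (fun i => σ (xs i)))) =
          ![σ ((ts 0).realize (Sum.elim v xs))] := by
        funext i
        rw [Subsingleton.elim i 0, he, h1 N σ hE]
        rfl
      have h4 : (fun i => (ts i).realize (Sum.elim v xs)) = ![(ts 0).realize (Sum.elim v xs)] := by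
        funext i
        rw [Subsingleton.elim i 0]
        rfl
      rw [h3, h4]
      exact h2
    · exact ((hRel l hl).false R).elim
  | imp f g ih1 ih2 =>
    obtain ⟨F1, E1, h1⟩ := ih1
    obtain ⟨F2, E2, h2⟩ := ih2
    refine ⟨F1 ∪ F2, E1 ∪ E2, fun N _ σ hE hFR v xs => ?_⟩
    simp only [BoundedFormula.Realize]
    rw [h1 N σ (fun c hc => hE c (Finset.mem_union_left _ hc))
        (fun c hc => hFR c (Finset.mem_union_left _ hc)),
      h2 N σ (fun c hc => hE c (Finset.mem_union_right _ hc))
        (fun c hc => hFR c (Finset.mem_union_right _ hc))]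
  | @all k f ih =>
    obtain ⟨F1, E1, h1⟩ := ih
    refine ⟨F1, E1, fun N _ σ hE hFR v xs => ?_⟩
    simp only [BoundedFormula.Realize]
    refine σ.surjective.forall.trans (forall_congr' fun x => ?_)
    rw [← h1 N σ hE hFR v (Fin.snoc xs x)]
    have : (Fin.snoc (fun i => σ (xs i)) (σ x) : Fin (k + 1) → N) =
        fun i => σ ((Fin.snoc xs x : Fin (k + 1) → N) i) := by
      exact (Fin.comp_snoc (α := N) σ xs x).symm
    rw [this]

variable (M : Type) [L'.Structure M] [Nonempty M]

/-- The literal `± r(x_j)`, chosen according to a proposition. -/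
noncomputable def lit {α : Type} (φ : L'.Formula α) (P : Prop) : L'.Formula α :=
  open Classical in if P then φ else ∼φ

theorem lit_realize {α : Type} (φ : L'.Formula α) (P : Prop) {N : Type} [L'.Structure N]
    (v : α → N) : (lit φ P).Realize v ↔ (φ.Realize v ↔ P) := by
  classical
  unfold lit
  by_cases h : P
  · rw [if_pos h]; tauto
  · rw [if_neg h, Formula.realize_not]; tauto

/-- the formula `r(x_j)` -/
def relF {n : ℕ} (r : L'.Relations 1) (j : Fin n) : L'.Formula (Fin n) := r.formula ![Term.var j]

theorem relF_realize {n : ℕ} (r : L'.Relations 1) (j : Fin n) {N : Type} [L'.Structure N]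
    (v : Fin n → N) : (relF r j).Realize v ↔ Structure.RelMap r ![v j] := by
  unfold relF
  rw [Formula.realize_rel]
  have : (fun i => (![Term.var j] : Fin 1 → L'.Term (Fin n)) i |>.realize v) = ![v j] := by
    funext i
    rw [Subsingleton.elim i 0]
    rfl
  rw [this]

/-- the formula `c = x_j` -/
def conF {n : ℕ} (c : L'.Functions 0) (j : Fin n) : L'.Formula (Fin n) :=
  Term.equal (Term.func c Fin.elim0) (Term.var j)

theorem conF_realize {n : ℕ} (c : L'.Functions 0) (j : Fin n) {N : Type} [L'.Structure N]
    (v : Fin n → N) : (conF c j).Realize v ↔ cval N c = v j := by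
  unfold conF
  rw [Formula.realize_equal, Term.realize_func, Term.realize_var]
  have : (fun i => (Fin.elim0 i : L'.Term (Fin n)).realize v) = Fin.elim0 :=
    funext fun i => i.elim0
  rw [this]

/-- the formula `x_i = x_j` -/
def eqF {n : ℕ} (i j : Fin n) : L'.Formula (Fin n) := Term.equal (Term.var i) (Term.var j)

theorem eqF_realize {n : ℕ} (i j : Fin n) {N : Type} [L'.Structure N]
    (v : Fin n → N) : (eqF (L' := L') i j).Realize v ↔ v i = v j := by
  unfold eqF
  rw [Formula.realize_equal, Term.realize_var, Term.realize_var]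

omit [Nonempty M] in
theorem model_iff {N : Type} [L'.Structure N] (hN : N ⊨ L'.completeTheory M) (φ : L'.Sentence) :
    N ⊨ φ ↔ M ⊨ φ := by
  constructor
  · intro h
    by_contra hc
    have h2 : (∼φ : L'.Sentence) ∈ L'.completeTheory M := by
      rw [mem_completeTheory, Sentence.realize_not]
      exact hc
    have h3 := hN.realize_of_mem _ h2
    rw [Sentence.realize_not] at h3
    exact h3 h
  · intro h
    exact hN.realize_of_mem _ (mem_completeTheory.2 h)

omit [Nonempty M] in
/-- Transfer of existential statements between elementarily equivalent structures. -/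
theorem exists_transfer {N : Type} [L'.Structure N] (hN : N ⊨ L'.completeTheory M) {n : ℕ}
    (χ : L'.Formula (Fin n)) (w : Fin n → M) (hw : χ.Realize w) :
    ∃ a : Fin n → N, χ.Realize a := by
  let χ' : L'.Formula (Empty ⊕ Fin n) := χ.relabel Sum.inr
  have h1 : M ⊨ (χ'.iExs (Fin n) : L'.Sentence) := by
    unfold Sentence.Realize
    rw [Formula.realize_iExs]
    refine ⟨w, ?_⟩
    simp only [χ', Formula.realize_relabel]
    exact hw
  have h2 := (model_iff M hN _).2 h1
  unfold Sentence.Realize at h2
  rw [Formula.realize_iExs] at h2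
  obtain ⟨a, ha⟩ := h2
  simp only [χ', Formula.realize_relabel] at ha
  exact ⟨a, ha⟩

/-- Same atomic data for two tuples, relative to all symbols. -/
structure SameData {n : ℕ} (N N' : Type) [L'.Structure N] [L'.Structure N'] (v : Fin n → N)
    (v' : Fin n → N') : Prop where
  r : ∀ (r : L'.Relations 1) (j : Fin n), Structure.RelMap r ![v j] ↔ Structure.RelMap r ![v' j]
  c : ∀ (c : L'.Functions 0) (j : Fin n), cval N c = v j ↔ cval N' c = v' j
  e : ∀ i j : Fin n, v i = v j ↔ v' i = v' j

omit [Nonempty M] in
include hF hRel in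
theorem transfer {n : ℕ} {N N' : Type} [L'.Structure N] [L'.Structure N']
    (hN : N ⊨ L'.completeTheory M) (hN' : N' ⊨ L'.completeTheory M) (v : Fin n → N)
    (v' : Fin n → N') (h : SameData (L' := L') N N' v v') (ψ : L'.Formula (Fin n)) (hψ : ψ.Realize v) :
    ψ.Realize v' := by
  classical
  by_contra hcon
  obtain ⟨F, E, hdep⟩ := formula_dep hF hRel ψ
  -- the formula describing the data relative to `F`, `E`
  let θ : L'.Formula (Fin n) :=
    Formula.iInf (fun rj : F × Fin n => lit (relF rj.1.1 rj.2) (Structure.RelMap rj.1.1 ![v rj.2])) ⊓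
    (Formula.iInf (fun cj : E × Fin n => lit (conF cj.1.1 cj.2) (cval N cj.1.1 = v cj.2)) ⊓
     Formula.iInf (fun ij : Fin n × Fin n => lit (eqF ij.1 ij.2) (v ij.1 = v ij.2)))
  have hθ : ∀ {N'' : Type} [L'.Structure N''] (w : Fin n → N''), θ.Realize w ↔
      (∀ r ∈ F, ∀ j, Structure.RelMap r ![w j] ↔ Structure.RelMap r ![v j]) ∧
      (∀ c ∈ E, ∀ j, cval N'' c = w j ↔ cval N c = v j) ∧
      (∀ i j, w i = w j ↔ v i = v j) := by
    intro N'' _ w
    simp only [θ, Formula.realize_inf, Formula.realize_iInf, lit_realize, relF_realize,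
      conF_realize, eqF_realize, Prod.forall, Subtype.forall]
  have hθv : θ.Realize v := (hθ v).2 ⟨fun _ _ _ => Iff.rfl, fun _ _ _ => Iff.rfl, fun _ _ => Iff.rfl⟩
  have hθv' : θ.Realize v' := (hθ v').2 ⟨fun r _ j => (h.r r j).symm, fun c _ j => (h.c c j).symm,
    fun i j => (h.e i j).symm⟩
  -- transfer an existential statement to `M`
  have key : ∀ {N'' : Type} [L'.Structure N''], N'' ⊨ L'.completeTheory M →
      ∀ (χ : L'.Formula (Fin n)) (w : Fin n → N''), χ.Realize w → ∃ a : Fin n → M, χ.Realize a := by
    intro N'' _ hN'' χ w hw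
    let χ' : L'.Formula (Empty ⊕ Fin n) := χ.relabel Sum.inr
    have h1 : N'' ⊨ (χ'.iExs (Fin n) : L'.Sentence) := by
      unfold Sentence.Realize
      rw [Formula.realize_iExs]
      refine ⟨w, ?_⟩
      simp only [χ', Formula.realize_relabel]
      exact hw
    have h2 := (model_iff M hN'' _).1 h1
    unfold Sentence.Realize at h2
    rw [Formula.realize_iExs] at h2
    obtain ⟨a, ha⟩ := h2
    simp only [χ', Formula.realize_relabel] at ha
    exact ⟨a, ha⟩
  obtain ⟨a, ha⟩ := key hN (ψ ⊓ θ) v (Formula.realize_inf.2 ⟨hψ, hθv⟩)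
  obtain ⟨b, hb⟩ := key hN' (∼ψ ⊓ θ) v' (Formula.realize_inf.2 ⟨Formula.realize_not.2 hcon, hθv'⟩)
  rw [Formula.realize_inf] at ha hb
  obtain ⟨ha1, ha2⟩ := ha
  obtain ⟨hb1, hb2⟩ := hb
  rw [Formula.realize_not] at hb1
  rw [hθ] at ha2 hb2
  -- a permutation moving `a` to `b`
  let A : Fin n ⊕ E → M := Sum.elim a (fun c => cval M c.1)
  let B : Fin n ⊕ E → M := Sum.elim b (fun c => cval M c.1)
  let R : M → M → Prop := fun x y => ∀ r ∈ F, (Structure.RelMap r ![x] ↔ Structure.RelMap r ![y])
  have hR : Equivalence R := ⟨fun x r _ => Iff.rfl, fun h r hr => (h r hr).symm,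
    fun h h' r hr => (h r hr).trans (h' r hr)⟩
  obtain ⟨σ, hσ1, hσ2⟩ := exists_perm R hR A B (by
    rintro (i | c) (j | d)
    · exact (ha2.2.2 i j).trans (hb2.2.2 i j).symm
    · exact eq_comm.trans (((ha2.2.1 d.1 d.2 i).trans (hb2.2.1 d.1 d.2 i).symm).trans eq_comm)
    · exact (ha2.2.1 c.1 c.2 j).trans (hb2.2.1 c.1 c.2 j).symm
    · exact Iff.rfl) (by
    rintro (i | c)
    · intro r hr
      exact (ha2.1 r hr i).trans (hb2.1 r hr i).symm
    · exact hR.refl _) Finset.univ
  have h3 := hdep M σ (fun c hc => hσ1 (Sum.inr ⟨c, hc⟩) (Finset.mem_univ _))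
    (fun r hr x => ((hσ2 x) r hr).symm) a Fin.elim0
  apply hb1
  have h4 : (fun i => σ (a i)) = b := funext fun i => hσ1 (Sum.inl i) (Finset.mem_univ _)
  have h5 : (fun i : Fin 0 => σ (Fin.elim0 i)) = (Fin.elim0 : Fin 0 → M) := funext fun i => i.elim0
  rw [h4, h5] at h3
  have h6 : ψ.Realize b ↔ ψ.Realize a := by
    have e1 : ∀ w : Fin n → M, ψ.Realize w ↔ BoundedFormula.Realize ψ w Fin.elim0 := by
      intro w
      unfold Formula.Realize
      rw [Subsingleton.elim (default : Fin 0 → M) Fin.elim0]
    rw [e1, e1]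
    exact h3
  exact h6.2 ha1

omit [Nonempty M] in
theorem cval_eq_iff {N : Type} [L'.Structure N] (hN : N ⊨ L'.completeTheory M)
    (c d : L'.Functions 0) : cval N c = cval N d ↔ cval M c = cval M d := by
  let φ : L'.Sentence := (Term.equal (Term.func c Fin.elim0) (Term.func d Fin.elim0) :
    L'.Formula Empty)
  have h : ∀ {N'' : Type} [L'.Structure N''], N'' ⊨ φ ↔ cval N'' c = cval N'' d := by
    intro N'' _
    unfold Sentence.Realize
    simp only [φ]
    rw [Formula.realize_equal, Term.realize_func, Term.realize_func]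
    have : (fun i => (Fin.elim0 i : L'.Term Empty).realize (default : Empty → N'')) = Fin.elim0 :=
      funext fun i => i.elim0
    rw [this]
  rw [← h, ← h]
  exact model_iff M hN φ

omit [Nonempty M] in
include hF hRel in
theorem card_types (n : ℕ) : Cardinal.mk ((L'.completeTheory M).CompleteType (Fin n)) ≤
    Cardinal.mk (Set (L'.Relations 1 × Fin n) × (Fin n → Option (L'.Functions 0)) ×
      Set (Fin n × Fin n)) := by
  classical
  have hex := fun p : (L'.completeTheory M).CompleteType (Fin n) =>
    Theory.exists_modelType_is_realized_in _ p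
  choose N hN using hex
  have hex2 : ∀ p, ∃ v : Fin n → N p, (L'.completeTheory M).typeOf v = p := fun p => hN p
  choose v hv using hex2
  let D1 : (L'.completeTheory M).CompleteType (Fin n) → Set (L'.Relations 1 × Fin n) :=
    fun p => {rj | Structure.RelMap rj.1 ![v p rj.2]}
  let D2 : (L'.completeTheory M).CompleteType (Fin n) → (Fin n → Option (L'.Functions 0)) :=
    fun p j => if h : ∃ c : L'.Functions 0, cval (N p) c = v p j then some h.choose else none
  let D3 : (L'.completeTheory M).CompleteType (Fin n) → Set (Fin n × Fin n) :=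
    fun p => {ij | v p ij.1 = v p ij.2}
  have hD2a : ∀ p j (c : L'.Functions 0), D2 p j = some c → cval (N p) c = v p j := by
    intro p j c h
    simp only [D2] at h
    split_ifs at h with h'
    rw [Option.some.injEq] at h
    rw [← h]
    exact h'.choose_spec
  have hD2b : ∀ p j, D2 p j = none → ∀ c : L'.Functions 0, cval (N p) c ≠ v p j := by
    intro p j h c hc
    simp only [D2] at h
    split_ifs at h with h'
    exact h' ⟨c, hc⟩
  have hmod : ∀ p, (N p : Type) ⊨ L'.completeTheory M := fun p => (N p).is_model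
  refine Cardinal.mk_le_of_injective (f := fun p => (D1 p, D2 p, D3 p)) ?_
  intro p q hpq
  simp only [Prod.mk.injEq] at hpq
  obtain ⟨e1, e2, e3⟩ := hpq
  have hc : ∀ (p q) (_ : D2 p = D2 q) (c : L'.Functions 0) (j : Fin n),
      cval (N p) c = v p j → cval (N q) c = v q j := by
    intro p q e c j h
    cases hd : D2 p j with
    | none => exact absurd h (hD2b p j hd c)
    | some d =>
      have h1 := hD2a p j d hd
      have h2 : D2 q j = some d := by rw [← e]; exact hd
      have h3 := hD2a q j d h2
      rw [← h1] at h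
      rw [← h3]
      exact (cval_eq_iff M (hmod q) c d).2 ((cval_eq_iff M (hmod p) c d).1 h)
  have hsame : SameData (L' := L') (N p) (N q) (v p) (v q) := by
    refine ⟨fun r j => ?_, fun c j => ⟨hc p q e2 c j, hc q p e2.symm c j⟩, fun i j => ?_⟩
    · have := congrArg (fun S : Set (L'.Relations 1 × Fin n) => (r, j) ∈ S) e1
      exact iff_of_eq this
    · have := congrArg (fun S : Set (Fin n × Fin n) => (i, j) ∈ S) e3
      exact iff_of_eq this
  have hsame' : SameData (L' := L') (N q) (N p) (v q) (v p) :=
    ⟨fun r j => (hsame.r r j).symm, fun c j => (hsame.c c j).symm, fun i j => (hsame.e i j).symm⟩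
  rw [← hv p, ← hv q]
  refine SetLike.ext fun φ => ?_
  rw [Theory.CompleteType.mem_typeOf, Theory.CompleteType.mem_typeOf]
  exact ⟨transfer hF hRel M (hmod p) (hmod q) _ _ hsame _,
    transfer hF hRel M (hmod q) (hmod p) _ _ hsame' _⟩

end Unary

/-! ## The language of unary predicates -/

/-- Unary relation symbols `P n`. -/
inductive URel : ℕ → Type
  | P (n : ℕ) : URel 1

/-- The language with unary relation symbols `P 0, P 1, …` only. -/
def UL : FirstOrder.Language.{0, 0} := ⟨fun _ => Empty, URel⟩

/-- The relation symbol `P n`. -/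
def PR (n : ℕ) : UL.Relations 1 := URel.P n

/-- The structure on the subsets of `ℕ` in which `P n` holds of `x` when `n ∈ x`. -/
instance : UL.Structure (Set ℕ) where
  funMap f := f.elim
  RelMap r v := match r, v with
    | URel.P n, v => n ∈ v 0

theorem relMap_PR (n : ℕ) (x : Set ℕ) : Structure.RelMap (PR n) ![x] ↔ n ∈ x := Iff.rfl

instance : Countable UL.Symbols := by
  have h1 : IsEmpty (Σ l, UL.Functions l) := ⟨fun x => x.2.elim⟩
  have h2 : Countable (Σ l, UL.Relations l) := by
    have : Function.Surjective (fun n : ℕ => (⟨1, URel.P n⟩ : Σ l, UL.Relations l)) := by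
      rintro ⟨l, r⟩
      cases r with
      | P n => exact ⟨n, rfl⟩
    exact this.countable
  unfold Language.Symbols
  infer_instance

theorem UL_countable : UL.card ≤ Cardinal.aleph0 :=
  Cardinal.mk_le_aleph0

theorem UL_stable (T : UL.Theory) (c : Cardinal.{0}) (hc : Cardinal.continuum ≤ c) :
    FOStable T c := by
  intro M _ _ _ A hA n
  refine (card_types (L' := UL[[A]]) ?_ ?_ M n).trans ?_
  · intro k
    refine ⟨fun f => ?_⟩
    rcases f with f | f
    · exact f.elim
    · exact f.elim
  · intro k hk
    refine ⟨fun r => ?_⟩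
    rcases r with r | r
    · cases r
      exact hk rfl
    · exact r.elim
  · have hc0 : Cardinal.aleph0 ≤ c := Cardinal.aleph0_le_continuum.trans hc
    have hr : Countable (UL[[A]].Relations 1) := by
      have : Function.Surjective (fun n : ℕ => (Sum.inl (URel.P n) : UL[[A]].Relations 1)) := by
        rintro (r | r)
        · cases r with
          | P n => exact ⟨n, rfl⟩
        · exact r.elim
      exact this.countable
    have hf : Cardinal.mk (UL[[A]].Functions 0) ≤ c := by
      have : Function.Injective (fun f : UL[[A]].Functions 0 =>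
          (Sum.elim (fun e : Empty => e.elim) (fun a : A => a) f : A)) := by
        rintro (f | f) (g | g) h
        · exact f.elim
        · exact f.elim
        · exact g.elim
        · exact congrArg Sum.inr h
      exact (Cardinal.mk_le_of_injective this).trans hA
    simp only [Cardinal.mk_prod, Cardinal.lift_id]
    have h1 : Cardinal.mk (Set (UL[[A]].Relations 1 × Fin n)) ≤ c := by
      rw [Cardinal.mk_set]
      refine le_trans ?_ hc
      rw [← Cardinal.two_power_aleph0]
      exact Cardinal.power_le_power_left two_ne_zero Cardinal.mk_le_aleph0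
    have h3 : Cardinal.mk (Set (Fin n × Fin n)) ≤ c :=
      (Cardinal.mk_le_aleph0).trans hc0
    have h2 : Cardinal.mk (Fin n → Option (UL[[A]].Functions 0)) ≤ c := by
      have h4 : Cardinal.mk (Option (UL[[A]].Functions 0)) ≤ c := by
        rw [Cardinal.mk_option]
        exact Cardinal.add_le_of_le hc0 hf (Cardinal.one_le_aleph0.trans hc0)
      rw [Cardinal.mk_pi, Cardinal.prod_const, Cardinal.lift_id, Cardinal.lift_id, Cardinal.mk_fin,
        Cardinal.power_natCast]
      exact (pow_le_pow_left' h4 n).trans (Cardinal.power_nat_le hc0)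
    exact Cardinal.mul_le_of_le hc0 h1 (Cardinal.mul_le_of_le hc0 h2 h3)

end Pool.Agent.Helper666.Rand
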