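import Pool.Agent.Helper666.Rand.Main

namespace Pool.Agent.Helper666.Rand

open MeasureTheory Filter Topology FirstOrder FirstOrder.Language
open scoped ENNReal symmDiff FirstOrder

/-- If the infimum defining the distance of types is small, there are close realizations. -/
theorem typeDist_lt {L : FirstOrder.Language.{0, 0}} {N : PreStr L} {AK : Set N.K} {AB : Set N.B}
    {m n : ℕ} {p q : CForm L (AK ⊕ Fin m) (AB ⊕ Fin n) → unitInterval} {ε : ℝ≥0∞}
    (h : typeDist N AK AB p q < ε) :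
    ∃ (N' : PreStr L) (iK : AK → N'.K) (iB : AB → N'.B) (_ : N'.IsStructure)
    (_ : SameTheoryOver N AK AB N' iK iB) (a : Fin m → N'.K) (b : Fin n → N'.B)
    (a' : Fin m → N'.K) (b' : Fin n → N'.B) (_ : tp N' iK iB a b = p)
    (_ : tp N' iK iB a' b' = q), edist (a, b) (a', b') < ε := by
  simpa only [typeDist, iInf_lt_iff] using h

section

variable {Ω : Type} [MeasurableSpace Ω] (μ : Measure Ω) [IsProbabilityMeasure μ]
  (M : Type) [UL.Structure M] [Nonempty M] {Λ : Type}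
  (E : ℕ → Set Ω) (hE : ∀ n, MeasurableSet (E n))

/-- The set of parameters. -/
def AB (Λ : Type) : Set (NN μ M Λ).B := Set.range (ee μ M E hE)

/-- A parameter. -/
noncomputable def par (i : Λ) : AB μ M E hE Λ := ⟨ee μ M E hE i, i, rfl⟩

/-- The formula `d(⟦P n (x)⟧, e)`. -/
def distF (n : ℕ) (e : AB μ M E hE Λ) :
    CForm UL ((∅ : Set (NN μ M Λ).K) ⊕ Fin 1) (AB μ M E hE Λ ⊕ Fin 0) :=
  CFormula.distB (.ev (phi n) (fun _ => Sum.inl (Sum.inr 0))) (.var (Sum.inl (Sum.inl e)))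

theorem distF_value (n : ℕ) (e : AB μ M E hE Λ) (N' : PreStr UL)
    (iK : (∅ : Set (NN μ M Λ).K) → N'.K) (iB : AB μ M E hE Λ → N'.B) (a : Fin 1 → N'.K)
    (b : Fin 0 → N'.B) :
    tp N' iK iB a b (distF μ M E hE n e) = N'.dB (N'.ev (phi n) (fun _ => a 0)) (iB e) := rfl

/-- The formula `d(e, e')`. -/
def distE (e e' : AB μ M E hE Λ) : CForm UL (∅ : Set (NN μ M Λ).K) (AB μ M E hE Λ) :=
  CFormula.distB (.var (Sum.inl e)) (.var (Sum.inl e'))

theorem distE_value (e e' : AB μ M E hE Λ) (N' : PreStr UL)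
    (iK : (∅ : Set (NN μ M Λ).K) → N'.K) (iB : AB μ M E hE Λ → N'.B) :
    (distE μ M E hE e e').value N' iK iB = N'.dB (iB e) (iB e') := rfl

/-- The type of the random element for the sequence `s`. -/
noncomputable def ps (hM : M ⊨ UL.completeTheory (Set ℕ)) (s : ℕ → Λ) :
    CForm UL ((∅ : Set (NN μ M Λ).K) ⊕ Fin 1) (AB μ M E hE Λ ⊕ Fin 0) → unitInterval :=
  tp (NN μ M Λ) Subtype.val Subtype.val (fun _ => xx μ M E hE hM s) Fin.elim0

theorem ps_mem (hM : M ⊨ UL.completeTheory (Set ℕ)) (s : ℕ → Λ) :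
    ps μ M E hE hM s ∈ TypeSpace (NN μ M Λ) ∅ (AB μ M E hE Λ) 1 0 :=
  ⟨NN μ M Λ, Subtype.val, Subtype.val, NN_isStructure μ M, fun _ => rfl, _, _, rfl⟩

theorem ps_distF (hM : M ⊨ UL.completeTheory (Set ℕ)) (s : ℕ → Λ) (n : ℕ) :
    ps μ M E hE hM s (distF μ M E hE n (par μ M E hE (s n))) = 0 := by
  unfold ps
  rw [distF_value, ev_xx]
  apply Subtype.ext
  exact dist_self _

/-- A type close to `ps s` knows `s`. -/
theorem near (hM : M ⊨ UL.completeTheory (Set ℕ)) (s : ℕ → Λ)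
    {q : CForm UL ((∅ : Set (NN μ M Λ).K) ⊕ Fin 1) (AB μ M E hE Λ ⊕ Fin 0) → unitInterval}
    (h : typeDist (NN μ M Λ) ∅ (AB μ M E hE Λ) (ps μ M E hE hM s) q < ENNReal.ofReal (1 / 8))
    (n : ℕ) :
    (q (distF μ M E hE n (par μ M E hE (s n))) : ℝ) < 1 / 8 := by
  obtain ⟨N', iK, iB, hN', hsame, a, b, a', b', hp, hq, hd⟩ := typeDist_lt h
  have h0 := ps_distF μ M E hE hM s n
  rw [← hp, distF_value] at h0
  have h1 : dist (N'.ev (phi n) (fun _ => a 0)) (iB (par μ M E hE (s n))) = 0 :=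
    congrArg Subtype.val h0
  rw [← hq, distF_value]
  change dist (N'.ev (phi n) (fun _ => a' 0)) (iB (par μ M E hE (s n))) < 1 / 8
  have h2 : dist (a 0) (a' 0) < 1 / 8 := by
    have h3 : edist (a 0) (a' 0) < ENNReal.ofReal (1 / 8) := by
      refine lt_of_le_of_lt ?_ hd
      rw [Prod.edist_eq]
      exact (edist_le_pi_edist a a' 0).trans (le_max_left _ _)
    rw [edist_dist] at h3
    exact (ENNReal.ofReal_lt_ofReal_iff (by norm_num)).1 h3
  have h4 : dist (N'.ev (phi n) (fun _ => a' 0)) (N'.ev (phi n) (fun _ => a 0)) ≤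
      dist (a' 0) (a 0) := by
    have := N'.ev_lip (phi n) (fun _ => a' 0) (fun _ => a 0)
    simpa using this
  have h5 := dist_triangle (N'.ev (phi n) (fun _ => a' 0)) (N'.ev (phi n) (fun _ => a 0))
    (iB (par μ M E hE (s n)))
  rw [dist_comm (a' 0) (a 0)] at h4
  linarith

theorem far (hM : M ⊨ UL.completeTheory (Set ℕ))
    (h2 : ∀ m n, m ≠ n → μ.real (E m ∆ E n) = 1 / 2) (s t : ℕ → Λ)
    {q : CForm UL ((∅ : Set (NN μ M Λ).K) ⊕ Fin 1) (AB μ M E hE Λ ⊕ Fin 0) → unitInterval}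
    (hs : typeDist (NN μ M Λ) ∅ (AB μ M E hE Λ) (ps μ M E hE hM s) q < ENNReal.ofReal (1 / 8))
    (ht : typeDist (NN μ M Λ) ∅ (AB μ M E hE Λ) (ps μ M E hE hM t) q < ENNReal.ofReal (1 / 8)) :
    s = t := by
  by_contra hst
  obtain ⟨n, hn⟩ := Function.ne_iff.1 hst
  have e1 := near μ M E hE hM s hs n
  have e2 := near μ M E hE hM t ht n
  obtain ⟨N', iK, iB, hN', hsame, a, b, a', b', hp, hq, hd⟩ := typeDist_lt hs
  rw [← hq, distF_value] at e1 e2
  have h3 := hsame (distE μ M E hE (par μ M E hE (s n)) (par μ M E hE (t n)))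
  rw [distE_value, distE_value] at h3
  have h4 : dist (iB (par μ M E hE (s n))) (iB (par μ M E hE (t n))) = 1 / 2 := by
    have h5 : dist (iB (par μ M E hE (s n))) (iB (par μ M E hE (t n))) =
        dist (ee μ M E hE (s n)) (ee μ M E hE (t n)) := congrArg Subtype.val h3
    rw [h5, ee_dist μ M E hE h2 hn]
  have h6 := dist_triangle_left (iB (par μ M E hE (s n))) (iB (par μ M E hE (t n)))
    (N'.ev (phi n) (fun _ => a' 0))
  have e1' : dist (N'.ev (phi n) (fun _ => a' 0)) (iB (par μ M E hE (s n))) < 1 / 8 := e1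
  have e2' : dist (N'.ev (phi n) (fun _ => a' 0)) (iB (par μ M E hE (t n))) < 1 / 8 := e2
  linarith

theorem densityLE_of_card {X : Type} [PseudoEMetricSpace X] (S : Set X) (c : Cardinal.{0})
    (h : Cardinal.mk S ≤ c) : DensityLE edist S c :=
  ⟨S, subset_rfl, h, fun p hp ε hε => ⟨p, hp, by rwa [edist_self]⟩⟩

theorem not_contStable (hμ : Atomless μ) (hM : M ⊨ UL.completeTheory (Set ℕ)) (c : Cardinal.{0})
    (hc : c < c ^ Cardinal.aleph0) : ¬ ContStable (typical (L := UL) μ M).theory c := by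
  intro hstab
  obtain ⟨E, hE, h2⟩ := exists_seq_half hμ
  -- an index set of cardinality `c`
  let Λ : Type := c.out
  have hΛ : Cardinal.mk Λ = c := Cardinal.mk_out c
  have hAB : Cardinal.mk (AB μ M E hE Λ) ≤ c := by
    rw [← hΛ]
    exact Cardinal.mk_range_le
  obtain ⟨D, -, hDc, hD⟩ := hstab (NN μ M Λ) (NN_isStructure μ M) (NN_theory μ M) ∅
    (AB μ M E hE Λ) (densityLE_of_card _ _ (by simp)) (densityLE_of_card _ _ hAB) 1 0
  have hex : ∀ s : ℕ → Λ, ∃ q ∈ D, typeDist (NN μ M Λ) ∅ (AB μ M E hE Λ)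
      (ps μ M E hE hM s) q < ENNReal.ofReal (1 / 8) :=
    fun s => hD _ (ps_mem μ M E hE hM s) _ (by simp)
  choose q hqD hq using hex
  have hinj : Function.Injective (fun s : ℕ → Λ => (⟨q s, hqD s⟩ : D)) := by
    intro s t hst
    have h3 : q s = q t := congrArg Subtype.val hst
    have h4 := hq t
    rw [← h3] at h4
    exact far μ M E hE hM h2 s t (hq s) h4
  have h5 := (Cardinal.mk_le_of_injective hinj).trans hDc
  rw [← Cardinal.power_def, hΛ, Cardinal.mk_nat] at h5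
  exact absurd hc (not_lt.2 h5)

end

/-- A cardinal `c` with `2 ^ ℵ₀ ≤ c < c ^ ℵ₀`. -/
theorem exists_card : ∃ c : Cardinal.{0}, Cardinal.continuum ≤ c ∧ c < c ^ Cardinal.aleph0.{0} := by
  let f : ℕ → Cardinal.{0} := fun n => Nat.rec Cardinal.continuum (fun _ a => 2 ^ a) n
  have h1 : ∀ n, f n < f (n + 1) := fun n => Cardinal.cantor (f n)
  refine ⟨Cardinal.sum f, Cardinal.le_sum f 0, ?_⟩
  have h2 : Cardinal.sum f < Cardinal.prod (fun n => f (n + 1)) := Cardinal.sum_lt_prod _ _ h1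
  refine h2.trans_le ?_
  have h3 : Cardinal.prod (fun n => f (n + 1)) ≤ Cardinal.prod (fun _ : ℕ => Cardinal.sum f) :=
    Cardinal.prod_le_prod _ _ fun n => Cardinal.le_sum f (n + 1)
  rwa [Cardinal.prod_const, Cardinal.lift_id, Cardinal.mk_nat, Cardinal.lift_id] at h3

end Pool.Agent.Helper666.Rand
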