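import Pool.Agent.Helper666.Rand.Defs

namespace Pool.Agent.Helper666.Rand

open MeasureTheory Filter Topology
open scoped ENNReal symmDiff

variable {Ω : Type} [MeasurableSpace Ω] {μ : Measure Ω} [IsProbabilityMeasure μ]

theorem atomless_real (hμ : Atomless μ) (E : Set Ω) (hE : MeasurableSet E) (h : 0 < μ.real E) :
    ∃ F ⊆ E, MeasurableSet F ∧ 0 < μ.real F ∧ μ.real F < μ.real E := by
  have h1 : 0 < μ E := by
    rw [measureReal_def] at h
    exact (ENNReal.toReal_pos_iff.1 h).1
  obtain ⟨F, hF, hFm, h2, h3⟩ := hμ E hE h1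
  refine ⟨F, hF, hFm, ENNReal.toReal_pos h2.ne' (measure_ne_top _ _), ?_⟩
  exact (ENNReal.toReal_lt_toReal (measure_ne_top _ _) (measure_ne_top _ _)).2 h3

theorem atomless_half (hμ : Atomless μ) (E : Set Ω) (hE : MeasurableSet E) (h : 0 < μ.real E) :
    ∃ F ⊆ E, MeasurableSet F ∧ 0 < μ.real F ∧ μ.real F ≤ μ.real E / 2 := by
  obtain ⟨F, hF, hFm, h2, h3⟩ := atomless_real hμ E hE h
  by_cases hc : μ.real F ≤ μ.real E / 2
  · exact ⟨F, hF, hFm, h2, hc⟩
  · have h4 : μ.real (E \ F) = μ.real E - μ.real F := measureReal_sdiff hF hFm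
    exact ⟨E \ F, Set.sdiff_subset, hE.diff hFm, by linarith, by linarith⟩

theorem atomless_small (hμ : Atomless μ) (E : Set Ω) (hE : MeasurableSet E) (h : 0 < μ.real E)
    {ε : ℝ} (hε : 0 < ε) :
    ∃ F ⊆ E, MeasurableSet F ∧ 0 < μ.real F ∧ μ.real F ≤ ε := by
  have key : ∀ n : ℕ, ∃ F ⊆ E, MeasurableSet F ∧ 0 < μ.real F ∧ μ.real F ≤ (1 / 2) ^ n := by
    intro n
    induction n with
    | zero => exact ⟨E, subset_rfl, hE, h, by simp⟩
    | succ n ih =>
      obtain ⟨F, hF, hFm, h1, h2⟩ := ih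
      obtain ⟨F', hF', hFm', h1', h2'⟩ := atomless_half hμ F hFm h1
      refine ⟨F', hF'.trans hF, hFm', h1', ?_⟩
      rw [pow_succ]
      linarith
  obtain ⟨n, hn⟩ := exists_pow_lt_of_lt_one hε (by norm_num : (1 / 2 : ℝ) < 1)
  obtain ⟨F, hF, hFm, h1, h2⟩ := key n
  exact ⟨F, hF, hFm, h1, h2.trans hn.le⟩

/-- Sierpinski: sets of positive measure can be halved. -/
theorem halve (hμ : Atomless μ) (X : Set Ω) (hX : MeasurableSet X) :
    ∃ E ⊆ X, MeasurableSet E ∧ μ.real E = μ.real X / 2 := by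
  set c : ℝ := μ.real X / 2 with hc
  let S := {Y : Set Ω // MeasurableSet Y ∧ Y ⊆ X ∧ μ.real Y ≤ c}
  have step : ∀ Y : S, ∃ Y' : S, Y.1 ⊆ Y'.1 ∧ ∀ Z : Set Ω, MeasurableSet Z → Z ⊆ X \ Y.1 →
      μ.real Y.1 + μ.real Z ≤ c → μ.real Z ≤ 2 * (μ.real Y'.1 - μ.real Y.1) := by
    rintro ⟨Y, hY, hYX, hYc⟩
    let A : Set ℝ := {r | ∃ Z : Set Ω, MeasurableSet Z ∧ Z ⊆ X \ Y ∧ μ.real Y + μ.real Z ≤ c ∧
      r = μ.real Z}
    have hA1 : BddAbove A := ⟨1, by rintro r ⟨Z, -, -, -, rfl⟩; exact measureReal_le_one⟩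
    have hA2 : A.Nonempty := ⟨0, ∅, MeasurableSet.empty, Set.empty_subset _, by simpa using hYc,
      by simp⟩
    have hle : ∀ Z : Set Ω, MeasurableSet Z → Z ⊆ X \ Y → μ.real Y + μ.real Z ≤ c →
        μ.real Z ≤ sSup A := fun Z h1 h2 h3 => le_csSup hA1 ⟨Z, h1, h2, h3, rfl⟩
    by_cases hs : sSup A ≤ 0
    · refine ⟨⟨Y, hY, hYX, hYc⟩, subset_rfl, fun Z h1 h2 h3 => ?_⟩
      have := hle Z h1 h2 h3
      linarith
    · push Not at hs
      obtain ⟨r, ⟨Z, hZ1, hZ2, hZ3, rfl⟩, hr⟩ := exists_lt_of_lt_csSup hA2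
        (half_lt_self hs)
      have hd : Disjoint Y Z := by
        rw [Set.disjoint_left]
        intro ω h1 h2
        exact (hZ2 h2).2 h1
      have hU : μ.real (Y ∪ Z) = μ.real Y + μ.real Z := measureReal_union hd hZ1
      refine ⟨⟨Y ∪ Z, hY.union hZ1, Set.union_subset hYX (hZ2.trans Set.sdiff_subset), by
        rw [hU]; exact hZ3⟩, Set.subset_union_left, fun W h1 h2 h3 => ?_⟩
      have := hle W h1 h2 h3
      change μ.real W ≤ 2 * (μ.real (Y ∪ Z) - μ.real Y)
      rw [hU]
      linarith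
  choose f hf1 hf2 using step
  let Y : ℕ → S := fun n => f^[n] ⟨∅, MeasurableSet.empty, Set.empty_subset _, by
    simp only [measureReal_empty]; have : 0 ≤ μ.real X := measureReal_nonneg; linarith⟩
  have hYs : ∀ n, Y (n + 1) = f (Y n) := fun n => Function.iterate_succ_apply' f n _
  have hmono : Monotone fun n => (Y n).1 := by
    refine monotone_nat_of_le_succ fun n => ?_
    rw [hYs]
    exact hf1 (Y n)
  let E : Set Ω := ⋃ n, (Y n).1
  have hEm : MeasurableSet E := MeasurableSet.iUnion fun n => (Y n).2.1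
  have hEX : E ⊆ X := Set.iUnion_subset fun n => (Y n).2.2.1
  have hlim : Tendsto (fun n => μ.real (Y n).1) atTop (𝓝 (μ.real E)) := by
    have := tendsto_measure_iUnion_atTop (μ := μ) hmono
    exact (ENNReal.tendsto_toReal (measure_ne_top _ _)).comp this
  have hEc : μ.real E ≤ c := le_of_tendsto' hlim fun n => (Y n).2.2.2
  refine ⟨E, hEX, hEm, le_antisymm hEc ?_⟩
  by_contra hlt
  push Not at hlt
  have h1 : μ.real (X \ E) = μ.real X - μ.real E := measureReal_sdiff hEX hEm
  have h2 : 0 < μ.real (X \ E) := by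
    have : 0 ≤ μ.real E := measureReal_nonneg
    linarith
  obtain ⟨Z, hZ, hZm, hZ1, hZ2⟩ := atomless_small hμ (X \ E) (hX.diff hEm) h2
    (sub_pos.2 hlt)
  have h3 : ∀ n, μ.real Z ≤ 2 * (μ.real (Y (n + 1)).1 - μ.real (Y n).1) := by
    intro n
    rw [hYs]
    refine hf2 (Y n) Z hZm (hZ.trans fun ω hω => ⟨hω.1, fun h => hω.2 (Set.mem_iUnion.2 ⟨n, h⟩)⟩) ?_
    have : μ.real (Y n).1 ≤ μ.real E := measureReal_mono (Set.subset_iUnion (fun n => (Y n).1) n)
    linarith
  have h4 : ∀ n : ℕ, n * (μ.real Z / 2) ≤ μ.real (Y n).1 := by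
    intro n
    induction n with
    | zero => simp
    | succ n ih =>
      have := h3 n
      push_cast
      linarith
  obtain ⟨n, hn⟩ := exists_nat_gt (1 / (μ.real Z / 2))
  have h5 := h4 n
  have h6 : μ.real (Y n).1 ≤ 1 := measureReal_le_one
  rw [div_lt_iff₀ (by linarith)] at hn
  linarith

theorem halve_all (hμ : Atomless μ) (l : List (Set Ω)) (hl : ∀ F ∈ l, MeasurableSet F) :
    ∀ X : Set Ω, MeasurableSet X → ∃ E ⊆ X, MeasurableSet E ∧ μ.real E = μ.real X / 2 ∧
      ∀ F ∈ l, μ.real (E ∩ F) = μ.real (X ∩ F) / 2 := by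
  induction l with
  | nil =>
    intro X hX
    obtain ⟨E, h1, h2, h3⟩ := halve hμ X hX
    exact ⟨E, h1, h2, h3, by simp⟩
  | cons F l ih =>
    intro X hX
    have hF : MeasurableSet F := hl F (by simp)
    have hl' : ∀ F ∈ l, MeasurableSet F := fun G hG => hl G (by simp [hG])
    obtain ⟨E1, h11, h12, h13, h14⟩ := ih hl' (X ∩ F) (hX.inter hF)
    obtain ⟨E2, h21, h22, h23, h24⟩ := ih hl' (X \ F) (hX.diff hF)
    have hd : Disjoint E1 E2 := by
      rw [Set.disjoint_left]
      intro ω h1 h2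
      exact (h21 h2).2 (h11 h1).2
    have hsplit : ∀ G : Set Ω, MeasurableSet G → μ.real (X ∩ G) = μ.real (X ∩ F ∩ G) +
        μ.real ((X \ F) ∩ G) := by
      intro G hG
      rw [← measureReal_union (Set.disjoint_left.2 fun ω h1 h2 => h2.1.2 h1.1.2)
        ((hX.diff hF).inter hG)]
      congr 1
      ext ω
      simp only [Set.mem_inter_iff, Set.mem_union, Set.mem_sdiff]
      tauto
    refine ⟨E1 ∪ E2, ?_, h12.union h22, ?_, ?_⟩
    · exact Set.union_subset (h11.trans Set.inter_subset_left) (h21.trans Set.sdiff_subset)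
    · rw [measureReal_union hd h22, h13, h23]
      have := hsplit Set.univ MeasurableSet.univ
      simp only [Set.inter_univ] at this
      linarith
    · intro G hG
      rcases List.mem_cons.1 hG with rfl | hG
      · have h5 : (E1 ∪ E2) ∩ G = E1 := by
          ext ω
          simp only [Set.mem_inter_iff, Set.mem_union]
          constructor
          · rintro ⟨h | h, h'⟩
            · exact h
            · exact absurd h' (h21 h).2
          · intro h
            exact ⟨Or.inl h, (h11 h).2⟩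
        rw [h5, h13]
      · have hGm := hl' G hG
        have h5 : (E1 ∪ E2) ∩ G = (E1 ∩ G) ∪ (E2 ∩ G) := Set.union_inter_distrib_right _ _ _
        rw [h5, measureReal_union (hd.mono Set.inter_subset_left Set.inter_subset_left)
          (h22.inter hGm), h14 G hG, h24 G hG, hsplit G hGm]
        ring

theorem exists_half_dist (hμ : Atomless μ) (l : List (Set Ω)) (hl : ∀ F ∈ l, MeasurableSet F) :
    ∃ E : Set Ω, MeasurableSet E ∧ ∀ F ∈ l, μ.real (F ∆ E) = 1 / 2 := by
  obtain ⟨E, -, h2, h3, h4⟩ := halve_all hμ l hl Set.univ MeasurableSet.univ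
  refine ⟨E, h2, fun F hF => ?_⟩
  have h5 := h4 F hF
  simp only [Set.univ_inter] at h5
  rw [measureReal_symmDiff_eq (hl F hF) h2]
  have h6 : μ.real (F \ E) = μ.real F - μ.real (F ∩ E) := by
    have := measureReal_inter_add_sdiff (μ := μ) (s := F) h2
    linarith
  have h7 : μ.real (E \ F) = μ.real E - μ.real (E ∩ F) := by
    have := measureReal_inter_add_sdiff (μ := μ) (s := E) (hl F hF)
    linarith
  have h8 : μ.real (Set.univ : Set Ω) = 1 := by simp
  rw [h6, h7, Set.inter_comm F E, h5, h3, h8]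
  ring

/-- There is a sequence of events with pairwise distance one half. -/
theorem exists_seq_half (hμ : Atomless μ) : ∃ E : ℕ → Set Ω, (∀ n, MeasurableSet (E n)) ∧
    ∀ m n, m ≠ n → μ.real (E m ∆ E n) = 1 / 2 := by
  obtain ⟨E, h1, h2⟩ := exists_seq_of_forall_finset_exists (fun E : Set Ω => MeasurableSet E)
    (fun F E => μ.real (F ∆ E) = 1 / 2) (by
      intro s hs
      obtain ⟨E, h1, h2⟩ := exists_half_dist hμ s.toList (fun F hF => hs F (by simpa using hF))
      exact ⟨E, h1, fun F hF => h2 F (by simpa using hF)⟩)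
  refine ⟨E, h1, fun m n hmn => ?_⟩
  rcases lt_or_gt_of_ne hmn with h | h
  · exact h2 m n h
  · rw [symmDiff_comm]
    exact h2 n m h

/-- Lebesgue measure on `[0, 1]` is atomless. -/
theorem atomless_interval :
    Atomless (volume.restrict (Set.Icc (0 : ℝ) 1)) := by
  have hp : IsProbabilityMeasure (volume.restrict (Set.Icc (0 : ℝ) 1)) :=
    ⟨by simp⟩
  intro E hE hpos
  set ν := volume.restrict (Set.Icc (0 : ℝ) 1) with hν
  let f : ℝ → ℝ := fun t => ν.real (E ∩ Set.Iic t)
  have hmono : ∀ s t : ℝ, s ≤ t → f t - f s ≤ t - s := by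
    intro s t hst
    have h1 : f t ≤ f s + ν.real (Set.Ioc s t) := by
      refine (measureReal_mono ?_).trans (measureReal_union_le _ _)
      intro x hx
      by_cases h : x ≤ s
      · exact Or.inl ⟨hx.1, h⟩
      · exact Or.inr ⟨not_le.1 h, hx.2⟩
    have h2 : ν.real (Set.Ioc s t) ≤ t - s := by
      have h3 : ν (Set.Ioc s t) ≤ volume (Set.Ioc s t) := Measure.restrict_apply_le _ _
      have h4 := ENNReal.toReal_mono (by simp) h3
      rw [Real.volume_Ioc, ENNReal.toReal_ofReal (by linarith)] at h4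
      exact h4
    linarith
  have hmono2 : Monotone f := fun s t hst =>
    measureReal_mono (Set.inter_subset_inter_right _ (Set.Iic_subset_Iic.2 hst))
  have hcont : Continuous f := by
    have : LipschitzWith 1 f := by
      refine LipschitzWith.of_le_add fun s t => ?_
      rcases le_total s t with h | h
      · have := hmono2 h
        have h2 : (0 : ℝ) ≤ dist s t := dist_nonneg
        linarith
      · have h3 := hmono t s h
        rw [Real.dist_eq, abs_of_nonneg (sub_nonneg.2 h)]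
        linarith
    exact this.continuous
  have h0 : f (-1) = 0 := by
    have : ν (E ∩ Set.Iic (-1)) = 0 := by
      rw [hν, Measure.restrict_apply (hE.inter measurableSet_Iic)]
      have : E ∩ Set.Iic (-1 : ℝ) ∩ Set.Icc 0 1 = ∅ := by
        ext x
        simp only [Set.mem_inter_iff, Set.mem_Iic, Set.mem_Icc, Set.mem_empty_iff_false, iff_false]
        rintro ⟨⟨-, h1⟩, h2, -⟩
        linarith
      rw [this, measure_empty]
    simp only [f, measureReal_def, this, ENNReal.toReal_zero]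
  have h2 : f 2 = ν.real E := by
    have : ν (E ∩ Set.Iic 2) = ν E := by
      rw [hν, Measure.restrict_apply (hE.inter measurableSet_Iic), Measure.restrict_apply hE]
      congr 1
      ext x
      simp only [Set.mem_inter_iff, Set.mem_Iic, Set.mem_Icc]
      constructor
      · rintro ⟨⟨h1, -⟩, h2⟩; exact ⟨h1, h2⟩
      · rintro ⟨h1, h2⟩; exact ⟨⟨h1, by linarith [h2.2]⟩, h2⟩
    simp only [f, measureReal_def, this]
  have hposr : 0 < ν.real E := ENNReal.toReal_pos hpos.ne' (measure_ne_top _ _)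
  obtain ⟨t, -, ht⟩ := intermediate_value_Icc (by norm_num : (-1 : ℝ) ≤ 2) hcont.continuousOn
    (show ν.real E / 2 ∈ Set.Icc (f (-1)) (f 2) by
      rw [h0, h2]; constructor <;> linarith)
  refine ⟨E ∩ Set.Iic t, Set.inter_subset_left, hE.inter measurableSet_Iic, ?_, ?_⟩
  · by_contra h
    have h3 : ν (E ∩ Set.Iic t) = 0 := by simpa using h
    have h4 : f t = 0 := by simp only [f, measureReal_def, h3, ENNReal.toReal_zero]
    linarith
  · rw [← ENNReal.toReal_lt_toReal (measure_ne_top _ _) (measure_ne_top _ _)]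
    change f t < ν.real E
    linarith

end Pool.Agent.Helper666.Rand
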