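import Pool.Agent.Helper666.Rand.Upow

namespace Pool.Agent.Helper666.Rand

open MeasureTheory Filter Topology
open scoped ENNReal symmDiff FirstOrder

variable {L : FirstOrder.Language.{0, 0}} {J : Type} (U : Ultrafilter J) (N : PreStr L)

/-- The ultrapower of a pre-structure. -/
noncomputable def upow : PreStr L where
  K := UP U N.K
  B := UP U N.B
  metricK := upMetric U N.distK_le_one
  metricB := upMetric U N.distB_le_one
  nonemptyK := ⟨fun _ => Classical.arbitrary N.K⟩
  distK_le_one := up_dist_le_one U N.distK_le_one
  distB_le_one := up_dist_le_one U N.distB_le_one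
  ev φ v := fun j => N.ev φ (fun i => v i j)
  top := fun _ => N.top
  bot := fun _ => N.bot
  compl x := fun j => N.compl (x j)
  inf x y := fun j => N.inf (x j) (y j)
  sup x y := fun j => N.sup (x j) (y j)
  mu x := ul U (fun j => N.mu (x j))
  ev_lip φ v w := by
    refine le_of_tendsto_of_tendsto' (up_dist_tendsto U N.distB_le_one _ _)
      (tendsto_finsetSum _ fun i _ => up_dist_tendsto U N.distK_le_one (v i) (w i)) fun j => ?_
    exact N.ev_lip φ _ _
  compl_lip x y := by
    refine le_of_tendsto_of_tendsto' (up_dist_tendsto U N.distB_le_one _ _)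
      (up_dist_tendsto U N.distB_le_one x y) fun j => ?_
    exact N.compl_lip _ _
  inf_lip x y x' y' := by
    refine le_of_tendsto_of_tendsto' (up_dist_tendsto U N.distB_le_one _ _)
      ((up_dist_tendsto U N.distB_le_one x x').add (up_dist_tendsto U N.distB_le_one y y'))
      fun j => ?_
    exact N.inf_lip _ _ _ _
  sup_lip x y x' y' := by
    refine le_of_tendsto_of_tendsto' (up_dist_tendsto U N.distB_le_one _ _)
      ((up_dist_tendsto U N.distB_le_one x x').add (up_dist_tendsto U N.distB_le_one y y'))
      fun j => ?_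
    exact N.sup_lip _ _ _ _
  mu_lip x y := by
    refine le_of_tendsto_of_tendsto' ((ul_tendsto U (fun j => N.mu (x j))).dist
      (ul_tendsto U (fun j => N.mu (y j))))
      (up_dist_tendsto U N.distB_le_one x y) fun j => ?_
    exact N.mu_lip _ _

/-- an element of the ultrapower from a function -/
def uK (f : J → N.K) : (upow U N).K := f
/-- an event of the ultrapower from a function -/
def uB (f : J → N.B) : (upow U N).B := f

theorem upow_dK (f g : J → N.K) :
    (upow U N).dK (uK U N f) (uK U N g) = ul U (fun j => N.dK (f j) (g j)) := rfl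

theorem upow_dB (f g : J → N.B) :
    (upow U N).dB (uB U N f) (uB U N g) = ul U (fun j => N.dB (f j) (g j)) := rfl

theorem upow_eval {κ β : Type} (v : κ → J → N.K) (w : β → J → N.B) (t : BTerm L κ β) :
    t.eval (upow U N) (fun i => uK U N (v i)) (fun i => uB U N (w i)) =
      uB U N (fun j => t.eval N (fun i => v i j) (fun i => w i j)) := by
  induction t with
  | var b => rfl
  | ev φ x => rfl
  | top => rfl
  | bot => rfl
  | compl s ih => rw [BTerm.eval, ih]; rfl
  | inf s t ih1 ih2 => rw [BTerm.eval, ih1, ih2]; rfl
  | sup s t ih1 ih2 => rw [BTerm.eval, ih1, ih2]; rfl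

theorem sum_elim_comp2 {κ κ' X : Type} (v : κ → J → X) (x : κ' → J → X) (j : J) :
    (fun i => Sum.elim v x i j) = Sum.elim (fun i => v i j) (fun i => x i j) := by
  funext i
  cases i <;> rfl

theorem snoc_comp2 {X : Type} {n : ℕ} (x : Fin n → J → X) (a : J → X) (j : J) :
    (fun i => (Fin.snoc x a : Fin (n + 1) → J → X) i j) =
      (Fin.snoc (fun i => x i j) (a j) : Fin (n + 1) → X) :=
  (snoc_comp (fun f : J → X => f j) x a).symm

/-- supremum over a nonempty type commutes with ultralimits of choices -/
theorem ul_iSup {X : Type} [Nonempty X] (F : J → X → unitInterval) :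
    (⨆ a : J → X, ul U (fun j => F j (a j))) = ul U (fun j => ⨆ x, F j x) := by
  apply le_antisymm
  · exact iSup_le fun a => ul_mono U fun j => le_iSup (F j) (a j)
  · apply le_of_forall_lt
    intro c hc
    obtain ⟨d, hcd, hd⟩ : ∃ d, c < d ∧ d < ul U (fun j => ⨆ x, F j x) := exists_between hc
    have h1 : ∀ᶠ j in (U : Filter J), d < ⨆ x, F j x :=
      (ul_tendsto U _).eventually (lt_mem_nhds hd)
    have h2 : ∀ j, ∃ x, d < (⨆ x, F j x) → d < F j x := by
      intro j
      by_cases h : d < ⨆ x, F j x
      · obtain ⟨x, hx⟩ := lt_iSup_iff.1 h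
        exact ⟨x, fun _ => hx⟩
      · exact ⟨Classical.arbitrary X, fun h' => absurd h' h⟩
    choose a ha using h2
    have h3 : d ≤ ul U (fun j => F j (a j)) := by
      rw [← ul_const U d]
      exact ul_mono_ev U (h1.mono fun j hj => (ha j hj).le)
    exact lt_of_lt_of_le hcd (h3.trans (le_iSup (fun a : J → X => ul U (fun j => F j (a j))) a))

theorem ul_iInf {X : Type} [Nonempty X] (F : J → X → unitInterval) :
    (⨅ a : J → X, ul U (fun j => F j (a j))) = ul U (fun j => ⨅ x, F j x) := by
  apply le_antisymm
  · apply le_of_forall_gt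
    intro c hc
    obtain ⟨d, hd, hcd⟩ : ∃ d, ul U (fun j => ⨅ x, F j x) < d ∧ d < c := exists_between hc
    have h1 : ∀ᶠ j in (U : Filter J), (⨅ x, F j x) < d :=
      (ul_tendsto U _).eventually (gt_mem_nhds hd)
    have h2 : ∀ j, ∃ x, (⨅ x, F j x) < d → F j x < d := by
      intro j
      by_cases h : (⨅ x, F j x) < d
      · obtain ⟨x, hx⟩ := iInf_lt_iff.1 h
        exact ⟨x, fun _ => hx⟩
      · exact ⟨Classical.arbitrary X, fun h' => absurd h' h⟩
    choose a ha using h2
    have h3 : ul U (fun j => F j (a j)) ≤ d := by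
      rw [← ul_const U d]
      exact ul_mono_ev U (h1.mono fun j hj => (ha j hj).le)
    exact lt_of_le_of_lt ((iInf_le (fun a : J → X => ul U (fun j => F j (a j))) a).trans h3) hcd
  · exact le_iInf fun a => ul_mono U fun j => iInf_le (F j) (a j)

/-- The theorem of Łoś for the ultrapower. -/
theorem upow_val {κ β : Type} (v : κ → J → N.K) (w : β → J → N.B) {m n : ℕ}
    (φ : CFormula L κ β m n) :
    ∀ (x : Fin m → J → N.K) (y : Fin n → J → N.B),
    φ.val (upow U N) (fun i => uK U N (v i)) (fun i => uB U N (w i)) (fun i => uK U N (x i))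
      (fun i => uB U N (y i)) =
    ul U (fun j => φ.val N (fun i => v i j) (fun i => w i j) (fun i => x i j)
      (fun i => y i j)) := by
  induction φ with
  | mu t =>
    intro x y
    rw [CFormula.val, sum_elim_comp (uK U N), sum_elim_comp (uB U N), upow_eval]
    simp only [CFormula.val, sum_elim_comp2]
    rfl
  | distK a b =>
    intro x y
    rw [CFormula.val, sum_elim_comp (uK U N), upow_dK]
    simp only [CFormula.val, ← sum_elim_comp2]
  | distB s t =>
    intro x y
    rw [CFormula.val, sum_elim_comp (uK U N), sum_elim_comp (uB U N), upow_eval, upow_eval,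
      upow_dB]
    simp only [CFormula.val, sum_elim_comp2]
  | conn k u φ ih =>
    intro x y
    rw [CFormula.val]
    simp only [CFormula.val]
    rw [ul_cont U u (fun i j => (φ i).val N (fun i => v i j) (fun i => w i j) (fun i => x i j)
      (fun i => y i j))]
    congr 1
    funext i
    exact ih i x y
  | supK φ ih =>
    intro x y
    rw [CFormula.val]
    simp only [CFormula.val]
    rw [← ul_iSup]
    refine iSup_congr fun a => ?_
    have h := ih (Fin.snoc x a : Fin _ → J → N.K) y
    simp only [snoc_comp2] at h
    rw [← h]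
    congr 1
  | infK φ ih =>
    intro x y
    rw [CFormula.val]
    simp only [CFormula.val]
    rw [← ul_iInf]
    refine iInf_congr fun a => ?_
    have h := ih (Fin.snoc x a : Fin _ → J → N.K) y
    simp only [snoc_comp2] at h
    rw [← h]
    congr 1
  | supB φ ih =>
    intro x y
    have : Nonempty N.B := ⟨N.top⟩
    rw [CFormula.val]
    simp only [CFormula.val]
    rw [← ul_iSup]
    refine iSup_congr fun a => ?_
    have h := ih x (Fin.snoc y a : Fin _ → J → N.B)
    simp only [snoc_comp2] at h
    rw [← h]
    congr 1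
  | infB φ ih =>
    intro x y
    have : Nonempty N.B := ⟨N.top⟩
    rw [CFormula.val]
    simp only [CFormula.val]
    rw [← ul_iInf]
    refine iInf_congr fun a => ?_
    have h := ih x (Fin.snoc y a : Fin _ → J → N.B)
    simp only [snoc_comp2] at h
    rw [← h]
    congr 1

theorem upow_theory : (upow U N).theory = N.theory := by
  funext σ
  have h := upow_val U N (Empty.elim : Empty → J → N.K) (Empty.elim : Empty → J → N.B) σ
    Fin.elim0 Fin.elim0
  have h2 : (fun j => σ.val N (fun i : Empty => (Empty.elim i : J → N.K) j)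
      (fun i : Empty => (Empty.elim i : J → N.B) j) (fun i : Fin 0 => (Fin.elim0 i : J → N.K) j)
      (fun i : Fin 0 => (Fin.elim0 i : J → N.B) j)) = fun _ => N.theory σ := by
    funext j
    unfold PreStr.theory CForm.value
    congr 1
    · exact funext fun i => i.elim
    · exact funext fun i => i.elim
    · exact funext fun i => i.elim0
    · exact funext fun i => i.elim0
  rw [h2, ul_const] at h
  rw [← h]
  unfold PreStr.theory CForm.value
  congr 1

theorem upow_completeK (r : J → ℕ) (hr : ∀ n, ∀ᶠ j in (U : Filter J), n ≤ r j) :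
    CompleteSpace (upow U N).K :=
  up_complete U N.distK_le_one r hr

theorem upow_completeB (r : J → ℕ) (hr : ∀ n, ∀ᶠ j in (U : Filter J), n ≤ r j) :
    CompleteSpace (upow U N).B :=
  up_complete U N.distB_le_one r hr

end Pool.Agent.Helper666.Rand
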