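import Pool.Agent.Helper666.Rand.Los
import Pool.Agent.Helper666.Rand.Halving
import Pool.Agent.Helper666.Rand.FO

namespace Pool.Agent.Helper666.Rand

open MeasureTheory Filter Topology FirstOrder FirstOrder.Language
open scoped ENNReal symmDiff FirstOrder

section Construction

variable {Ω : Type} [MeasurableSpace Ω] (μ : Measure Ω) [IsProbabilityMeasure μ]
  (M : Type) [UL.Structure M] [Nonempty M] {Λ : Type}

/-- The formula `P n (x)`. -/
def phi (n : ℕ) : UL.Formula (Fin 1) := relF (PR n) 0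

/-- An injection of a finite set into `ℕ`, extended by zero. -/
noncomputable def idx (F : Finset Λ) (i : Λ) : ℕ :=
  open Classical in if h : i ∈ F then (F.equivFin ⟨i, h⟩ : ℕ) else 0

theorem idx_inj (F : Finset Λ) {i i' : Λ} (hi : i ∈ F) (hi' : i' ∈ F) (h : idx F i = idx F i') :
    i = i' := by
  unfold idx at h
  rw [dif_pos hi, dif_pos hi'] at h
  have h1 := F.equivFin.injective (Fin.ext h)
  exact congrArg Subtype.val h1

variable {M} in
omit [Nonempty M] in
theorem exists_pattern (hM : M ⊨ UL.completeTheory (Set ℕ)) (k : ℕ) (τ : Set (Fin k)) :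
    ∃ m : M, ∀ n : Fin k, Structure.RelMap (PR n) ![m] ↔ n ∈ τ := by
  let χ : UL.Formula (Fin 1) := Formula.iInf (fun n : Fin k => lit (relF (PR n) 0) (n ∈ τ))
  have h1 : χ.Realize (fun _ : Fin 1 => {n : ℕ | ∃ h : n < k, (⟨n, h⟩ : Fin k) ∈ τ}) := by
    simp only [χ, Formula.realize_iInf, lit_realize, relF_realize, relMap_PR]
    intro n
    constructor
    · rintro ⟨h, h'⟩
      exact h'
    · intro h
      exact ⟨n.2, h⟩
  obtain ⟨a, ha⟩ := exists_transfer (Set ℕ) hM χ _ h1
  refine ⟨a 0, fun n => ?_⟩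
  simp only [χ, Formula.realize_iInf, lit_realize, relF_realize] at ha
  exact ha n

/-- A choice of an element with a given pattern. -/
noncomputable def pat (hM : M ⊨ UL.completeTheory (Set ℕ)) (k : ℕ) (τ : Set (Fin k)) : M :=
  (exists_pattern hM k τ).choose

omit [Nonempty M] in
theorem pat_spec (hM : M ⊨ UL.completeTheory (Set ℕ)) (k : ℕ) (τ : Set (Fin k)) (n : Fin k) :
    Structure.RelMap (PR n) ![pat M hM k τ] ↔ n ∈ τ :=
  (exists_pattern hM k τ).choose_spec n

variable (E : ℕ → Set Ω) (hE : ∀ n, MeasurableSet (E n))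

/-- The event at index `j` for `i`. -/
noncomputable def evt (i : Λ) (j : Finset Λ × ℕ) : MeasuredSets μ := ⟨E (idx j.1 i), hE _⟩

/-- The random element at index `j` for the sequence `s`. -/
noncomputable def elt (hM : M ⊨ UL.completeTheory (Set ℕ)) (s : ℕ → Λ) (j : Finset Λ × ℕ) :
    RandElt μ M :=
  ⟨fun ω => pat M hM j.2 {n | ω ∈ E (idx j.1 (s n))}, by
    have h1 : (Set.range (pat M hM j.2)).Finite := Set.finite_range _
    exact (h1.subset (by rintro m ⟨ω, rfl⟩; exact ⟨_, rfl⟩)).countable, by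
    intro m
    have h2 : (fun ω => pat M hM j.2 {n | ω ∈ E (idx j.1 (s n))}) ⁻¹' {m} =
        ⋃ τ ∈ {τ : Set (Fin j.2) | pat M hM j.2 τ = m}, ⋂ n : Fin j.2,
          {ω | ω ∈ E (idx j.1 (s n)) ↔ n ∈ τ} := by
      ext ω
      simp only [Set.mem_preimage, Set.mem_singleton_iff, Set.mem_iUnion, Set.mem_iInter,
        Set.mem_ofPred_eq, exists_prop]
      constructor
      · intro h
        exact ⟨_, h, fun n => Iff.rfl⟩
      · rintro ⟨τ, h, h'⟩
        rw [← h]
        congr 1
        ext n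
        exact h' n
    rw [h2]
    refine MeasurableSet.biUnion (Set.to_countable _) fun τ _ => MeasurableSet.iInter fun n => ?_
    by_cases h : n ∈ τ
    · simp only [h, iff_true]
      exact hE _
    · simp only [h, iff_false]
      exact (hE (idx j.1 (s n))).compl⟩

theorem ev_elt (hM : M ⊨ UL.completeTheory (Set ℕ)) (s : ℕ → Λ) (j : Finset Λ × ℕ) (n : ℕ)
    (hn : n < j.2) :
    (typicalPre μ M).ev (phi n) (fun _ => elt μ M E hE hM s j) = evt μ E hE (s n) j := by
  apply Subtype.ext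
  change {ω | (phi n).Realize (fun _ : Fin 1 => (elt μ M E hE hM s j).1 ω)} = E (idx j.1 (s n))
  ext ω
  rw [Set.mem_ofPred_eq, phi, relF_realize]
  exact pat_spec M hM j.2 _ ⟨n, hn⟩

instance atTop_neBot : (atTop : Filter (Finset Λ × ℕ)).NeBot := by
  classical
  infer_instance

/-- The ultrafilter. -/
noncomputable def UU (Λ : Type) : Ultrafilter (Finset Λ × ℕ) := Ultrafilter.of atTop

theorem UU_ge (j₀ : Finset Λ × ℕ) : ∀ᶠ j in (UU Λ : Filter (Finset Λ × ℕ)), j₀ ≤ j :=
  (Ultrafilter.of_le atTop) (eventually_ge_atTop j₀)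

theorem UU_mem (i : Λ) : ∀ᶠ j in (UU Λ : Filter (Finset Λ × ℕ)), i ∈ j.1 :=
  (UU_ge ({i}, 0)).mono fun _ hj => hj.1 (Finset.mem_singleton_self i)

theorem UU_level (n : ℕ) : ∀ᶠ j in (UU Λ : Filter (Finset Λ × ℕ)), n ≤ j.2 :=
  (UU_ge (∅, n)).mono fun _ hj => hj.2

/-- The big model. -/
noncomputable def NN (Λ : Type) : PreStr UL := (upow (UU Λ) (typicalPre μ M)).quotient

theorem NN_isStructure : (NN μ M Λ).IsStructure :=
  q_isStructure _ (upow_completeK _ _ (fun j => j.2) UU_level)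
    (upow_completeB _ _ (fun j => j.2) UU_level)

theorem NN_theory : (NN μ M Λ).theory = (typical μ M).theory := by
  unfold NN typical
  rw [q_theory, upow_theory, q_theory]

/-- The events of the big model. -/
noncomputable def ee (i : Λ) : (NN μ M Λ).B :=
  qB _ (uB (UU Λ) (typicalPre μ M) (evt μ E hE i))

/-- The random elements of the big model. -/
noncomputable def xx (hM : M ⊨ UL.completeTheory (Set ℕ)) (s : ℕ → Λ) : (NN μ M Λ).K :=
  qK _ (uK (UU Λ) (typicalPre μ M) (elt μ M E hE hM s))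

theorem ee_dist (h2 : ∀ m n, m ≠ n → μ.real (E m ∆ E n) = 1 / 2) {i i' : Λ} (hii : i ≠ i') :
    dist (ee μ M E hE i) (ee μ M E hE i') = 1 / 2 := by
  refine (qB_dist _ _ _).trans ?_
  refine tendsto_nhds_unique (up_dist_tendsto (UU Λ) (typicalPre μ M).distB_le_one _ _) ?_
  refine tendsto_const_nhds.congr' ?_
  filter_upwards [UU_mem i, UU_mem i'] with j h h'
  exact (h2 _ _ (fun hh => hii (idx_inj j.1 h h' hh))).symm

theorem ev_xx (hM : M ⊨ UL.completeTheory (Set ℕ)) (s : ℕ → Λ) (n : ℕ) :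
    (NN μ M Λ).ev (phi n) (fun _ => xx μ M E hE hM s) = ee μ M E hE (s n) := by
  unfold ee xx
  refine (q_ev _ (phi n) (fun _ => uK (UU Λ) (typicalPre μ M) (elt μ M E hE hM s))).trans ?_
  apply qB_eq
  refine tendsto_nhds_unique (up_dist_tendsto (UU Λ) (typicalPre μ M).distB_le_one _ _) ?_
  refine tendsto_const_nhds.congr' ?_
  filter_upwards [UU_level (n + 1)] with j hj
  have h1 := ev_elt μ M E hE hM s j n hj
  change (0 : ℝ) = dist ((typicalPre μ M).ev (phi n) (fun _ => elt μ M E hE hM s j))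
    (evt μ E hE (s n) j)
  rw [h1]
  exact (dist_self _).symm

end Construction

end Pool.Agent.Helper666.Rand
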