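import Pool.Agent.Helper666.Rand.Defs

namespace Pool.Agent.Helper666.Rand

open MeasureTheory
open scoped ENNReal symmDiff FirstOrder

variable {L : FirstOrder.Language.{0, 0}}

section Quotient

variable (N : PreStr L)

/-- class of a random element -/
def qK (x : N.K) : N.quotient.K := (SeparationQuotient.mk x : SeparationQuotient N.K)

/-- class of an event -/
def qB (x : N.B) : N.quotient.B := (SeparationQuotient.mk x : SeparationQuotient N.B)

theorem qK_surj : Function.Surjective (qK N) := SeparationQuotient.surjective_mk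

theorem qB_surj : Function.Surjective (qB N) := SeparationQuotient.surjective_mk

theorem qK_dist (x y : N.K) : dist (qK N x) (qK N y) = dist x y := rfl

theorem qB_dist (x y : N.B) : dist (qB N x) (qB N y) = dist x y := rfl

theorem qB_eq {x y : N.B} (h : dist x y = 0) : qB N x = qB N y :=
  SeparationQuotient.mk_eq_mk.2 (Metric.inseparable_iff.2 h)

theorem dist_rep_mk {X : Type} [PseudoMetricSpace X] (x : X) :
    dist (rep (SeparationQuotient.mk x)) x = 0 := by
  rw [← SeparationQuotient.dist_mk, mk_rep, dist_self]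

theorem q_ev {n : ℕ} (φ : L.Formula (Fin n)) (v : Fin n → N.K) :
    N.quotient.ev φ (fun i => qK N (v i)) = qB N (N.ev φ v) := by
  apply qB_eq
  apply le_antisymm _ dist_nonneg
  refine (N.ev_lip φ _ _).trans (le_of_eq (Finset.sum_eq_zero fun i _ => ?_))
  exact dist_rep_mk (v i)

theorem q_compl (x : N.B) : N.quotient.compl (qB N x) = qB N (N.compl x) := by
  apply qB_eq
  apply le_antisymm _ dist_nonneg
  exact (N.compl_lip _ _).trans (le_of_eq (dist_rep_mk x))

theorem q_inf (x y : N.B) : N.quotient.inf (qB N x) (qB N y) = qB N (N.inf x y) := by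
  apply qB_eq
  apply le_antisymm _ dist_nonneg
  refine (N.inf_lip _ _ _ _).trans (le_of_eq ?_)
  rw [show dist (rep (qB N x)) x = 0 from dist_rep_mk x,
    show dist (rep (qB N y)) y = 0 from dist_rep_mk y, add_zero]

theorem q_sup (x y : N.B) : N.quotient.sup (qB N x) (qB N y) = qB N (N.sup x y) := by
  apply qB_eq
  apply le_antisymm _ dist_nonneg
  refine (N.sup_lip _ _ _ _).trans (le_of_eq ?_)
  rw [show dist (rep (qB N x)) x = 0 from dist_rep_mk x,
    show dist (rep (qB N y)) y = 0 from dist_rep_mk y, add_zero]

theorem q_mu (x : N.B) : N.quotient.mu (qB N x) = N.mu x := by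
  have : dist (N.quotient.mu (qB N x)) (N.mu x) ≤ 0 :=
    (N.mu_lip _ _).trans (le_of_eq (dist_rep_mk x))
  exact dist_le_zero.1 this

theorem q_eval {κ β : Type} (v : κ → N.K) (w : β → N.B) (t : BTerm L κ β) :
    t.eval N.quotient (fun i => qK N (v i)) (fun i => qB N (w i)) = qB N (t.eval N v w) := by
  induction t with
  | var b => rfl
  | ev φ x => exact q_ev N φ _
  | top => rfl
  | bot => rfl
  | compl s ih => rw [BTerm.eval, ih, q_compl]; rfl
  | inf s t ih1 ih2 => rw [BTerm.eval, ih1, ih2, q_inf]; rfl
  | sup s t ih1 ih2 => rw [BTerm.eval, ih1, ih2, q_sup]; rfl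

theorem sum_elim_comp {κ κ' X Y : Type} (f : X → Y) (v : κ → X) (x : κ' → X) :
    Sum.elim (fun i => f (v i)) (fun i => f (x i)) = fun i => f (Sum.elim v x i) := by
  funext i
  cases i <;> rfl

theorem snoc_comp {X Y : Type} {n : ℕ} (f : X → Y) (x : Fin n → X) (a : X) :
    (Fin.snoc (fun i => f (x i)) (f a) : Fin (n + 1) → Y) = fun i => f ((Fin.snoc x a : Fin (n + 1) → X) i) := by
  have := Fin.comp_snoc (α := X) f x a
  exact this.symm

theorem q_val {κ β : Type} (v : κ → N.K) (w : β → N.B) {m n : ℕ} (φ : CFormula L κ β m n) :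
    ∀ (x : Fin m → N.K) (y : Fin n → N.B),
    φ.val N.quotient (fun i => qK N (v i)) (fun i => qB N (w i)) (fun i => qK N (x i))
      (fun i => qB N (y i)) = φ.val N v w x y := by
  induction φ with
  | mu t =>
    intro x y
    rw [CFormula.val, sum_elim_comp, sum_elim_comp, q_eval, q_mu]
    rfl
  | distK a b =>
    intro x y
    rw [CFormula.val, sum_elim_comp]
    rfl
  | distB s t =>
    intro x y
    rw [CFormula.val, sum_elim_comp, sum_elim_comp, q_eval, q_eval]
    rfl
  | conn k u φ ih =>
    intro x y
    rw [CFormula.val, CFormula.val]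
    congr 1
    funext i
    exact ih i x y
  | supK φ ih =>
    intro x y
    rw [CFormula.val, CFormula.val, ← (qK_surj N).iSup_comp]
    refine iSup_congr fun a => ?_
    rw [snoc_comp]
    exact ih _ y
  | infK φ ih =>
    intro x y
    rw [CFormula.val, CFormula.val, ← (qK_surj N).iInf_comp]
    refine iInf_congr fun a => ?_
    rw [snoc_comp]
    exact ih _ y
  | supB φ ih =>
    intro x y
    rw [CFormula.val, CFormula.val, ← (qB_surj N).iSup_comp]
    refine iSup_congr fun a => ?_
    rw [snoc_comp]
    exact ih x _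
  | infB φ ih =>
    intro x y
    rw [CFormula.val, CFormula.val, ← (qB_surj N).iInf_comp]
    refine iInf_congr fun a => ?_
    rw [snoc_comp]
    exact ih x _

theorem q_theory : N.quotient.theory = N.theory := by
  funext σ
  have h := q_val N (Empty.elim : Empty → N.K) (Empty.elim : Empty → N.B) σ Fin.elim0 Fin.elim0
  unfold PreStr.theory CForm.value
  rw [← h]
  congr 1
  · exact funext fun i => i.elim
  · exact funext fun i => i.elim
  · exact funext fun i => i.elim0
  · exact funext fun i => i.elim0

theorem q_isStructure (hK : CompleteSpace N.K) (hB : CompleteSpace N.B) :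
    N.quotient.IsStructure where
  sepK x y h := by
    obtain ⟨x, rfl⟩ := qK_surj N x
    obtain ⟨y, rfl⟩ := qK_surj N y
    exact SeparationQuotient.mk_eq_mk.2 (Metric.inseparable_iff.2 h)
  sepB x y h := by
    obtain ⟨x, rfl⟩ := qB_surj N x
    obtain ⟨y, rfl⟩ := qB_surj N y
    exact SeparationQuotient.mk_eq_mk.2 (Metric.inseparable_iff.2 h)
  completeK := (inferInstance : CompleteSpace (SeparationQuotient N.K))
  completeB := (inferInstance : CompleteSpace (SeparationQuotient N.B))

end Quotient

end Pool.Agent.Helper666.Rand
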