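import Pool.Agent.Helper666.Rand.Quot

namespace Pool.Agent.Helper666.Rand

open MeasureTheory Filter Topology
open scoped ENNReal symmDiff FirstOrder

variable {L : FirstOrder.Language.{0, 0}}

section Ul

variable {J : Type} (U : Ultrafilter J)

/-- Limit along an ultrafilter in the unit interval. -/
noncomputable def ul (x : J → unitInterval) : unitInterval := (U.map x).lim

theorem ul_tendsto (x : J → unitInterval) : Tendsto x U (𝓝 (ul U x)) := by
  have := (U.map x).le_nhds_lim
  rwa [Ultrafilter.coe_map] at this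

theorem ul_unique {x : J → unitInterval} {a : unitInterval} (h : Tendsto x U (𝓝 a)) :
    ul U x = a := tendsto_nhds_unique (ul_tendsto U x) h

theorem ul_const (a : unitInterval) : ul U (fun _ => a) = a := ul_unique U tendsto_const_nhds

theorem ul_mono {x y : J → unitInterval} (h : ∀ j, x j ≤ y j) : ul U x ≤ ul U y :=
  le_of_tendsto_of_tendsto' (ul_tendsto U x) (ul_tendsto U y) h

theorem ul_mono_ev {x y : J → unitInterval} (h : ∀ᶠ j in (U : Filter J), x j ≤ y j) :
    ul U x ≤ ul U y :=
  le_of_tendsto_of_tendsto (ul_tendsto U x) (ul_tendsto U y) h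

theorem ul_congr_ev {x y : J → unitInterval} (h : ∀ᶠ j in (U : Filter J), x j = y j) :
    ul U x = ul U y :=
  le_antisymm (ul_mono_ev U (h.mono fun _ h => h.le)) (ul_mono_ev U (h.mono fun _ h => h.ge))

theorem ul_tendsto_real (x : J → unitInterval) :
    Tendsto (fun j => (x j : ℝ)) U (𝓝 (ul U x : ℝ)) :=
  (continuous_subtype_val.tendsto _).comp (ul_tendsto U x)

theorem ul_cont {k : ℕ} (u : C(Fin k → unitInterval, unitInterval))
    (x : Fin k → J → unitInterval) :
    ul U (fun j => u (fun i => x i j)) = u (fun i => ul U (x i)) := by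
  apply ul_unique
  have h1 : Tendsto (fun j => fun i => x i j) U (𝓝 (fun i => ul U (x i))) :=
    tendsto_pi_nhds.2 fun i => ul_tendsto U (x i)
  exact (u.continuous.tendsto _).comp h1

end Ul

section UP

variable {J : Type}

set_option linter.unusedVariables false in
/-- Functions `J → X`, to be metrized by the limit distance along `U`. -/
def UP (U : Ultrafilter J) (X : Type) : Type := J → X

variable (U : Ultrafilter J) {X : Type} [PseudoMetricSpace X]

/-- distance as an element of the unit interval -/
def dI (hX : ∀ x y : X, dist x y ≤ 1) (x y : X) : unitInterval := ⟨dist x y, dist_nonneg, hX x y⟩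

/-- The limit pseudometric. -/
@[reducible] noncomputable def upMetric (hX : ∀ x y : X, dist x y ≤ 1) :
    PseudoMetricSpace (UP U X) where
  dist f g := (ul U (fun j => dI hX (f j) (g j)) : ℝ)
  dist_self f := by
    have : (fun j => dI hX (f j) (f j)) = fun _ => (0 : unitInterval) := by
      funext j
      apply Subtype.ext
      simp [dI]
    rw [this, ul_const]
    rfl
  dist_comm f g := by
    have : (fun j => dI hX (f j) (g j)) = fun j => dI hX (g j) (f j) := by
      funext j
      apply Subtype.ext
      simp [dI, dist_comm]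
    rw [this]
  dist_triangle f g h := by
    refine le_of_tendsto_of_tendsto' (ul_tendsto_real U _)
      ((ul_tendsto_real U _).add (ul_tendsto_real U _)) fun j => ?_
    exact dist_triangle (f j) (g j) (h j)

theorem up_dist_tendsto (hX : ∀ x y : X, dist x y ≤ 1) (f g : UP U X) :
    Tendsto (fun j => dist (f j) (g j)) U (𝓝 ((upMetric U hX).dist f g)) :=
  ul_tendsto_real U (fun j => dI hX (f j) (g j))

theorem up_dist_le_one (hX : ∀ x y : X, dist x y ≤ 1) (f g : UP U X) :
    (upMetric U hX).dist f g ≤ 1 :=
  (ul U (fun j => dI hX (f j) (g j))).2.2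

/-- Completeness of the limit pseudometric, for a countably incomplete ultrafilter. -/
theorem up_complete (hX : ∀ x y : X, dist x y ≤ 1) (r : J → ℕ)
    (hr : ∀ n, ∀ᶠ j in (U : Filter J), n ≤ r j) :
    @CompleteSpace (UP U X) (upMetric U hX).toUniformSpace := by
  let _ := upMetric U hX
  refine Metric.complete_of_convergent_controlled_sequences (fun n => (1 / 2 : ℝ) ^ n)
    (fun n => by positivity) ?_
  intro u hu
  -- good indices
  have hgood : ∀ n, ∀ᶠ j in (U : Filter J), dist (u n j) (u (n + 1) j) < (1 / 2 : ℝ) ^ n := by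
    intro n
    have h1 : dist (u n) (u (n + 1)) < (1 / 2 : ℝ) ^ n := hu n n (n + 1) le_rfl (Nat.le_succ n)
    exact (up_dist_tendsto U hX (u n) (u (n + 1))).eventually (gt_mem_nhds h1)
  classical
  -- the level up to which index `j` is good
  let P : J → ℕ → Prop := fun j n => ∀ i ≤ n, dist (u i j) (u (i + 1) j) < (1 / 2 : ℝ) ^ i
  let lev : J → ℕ := fun j => Nat.findGreatest (fun n => ∀ i < n, dist (u i j) (u (i + 1) j) <
    (1 / 2 : ℝ) ^ i) (r j)
  let g : UP U X := fun j => u (lev j) j
  refine ⟨g, ?_⟩
  have hlev : ∀ n, ∀ᶠ j in (U : Filter J), n ≤ lev j := by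
    intro n
    have h2 : ∀ᶠ j in (U : Filter J), ∀ i < n, dist (u i j) (u (i + 1) j) < (1 / 2 : ℝ) ^ i := by
      have : ∀ᶠ j in (U : Filter J), ∀ i ∈ Finset.range n,
          dist (u i j) (u (i + 1) j) < (1 / 2 : ℝ) ^ i :=
        (Filter.eventually_all_finset _).2 fun i _ => hgood i
      exact this.mono fun j hj i hi => hj i (Finset.mem_range.2 hi)
    filter_upwards [h2, hr n] with j hj1 hj2
    exact Nat.le_findGreatest hj2 hj1
  have hlev2 : ∀ j, ∀ i < lev j, dist (u i j) (u (i + 1) j) < (1 / 2 : ℝ) ^ i := by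
    intro j
    have := Nat.findGreatest_spec (P := fun n => ∀ i < n, dist (u i j) (u (i + 1) j) <
      (1 / 2 : ℝ) ^ i) (m := 0) (n := r j) (Nat.zero_le _) (by simp)
    exact this
  -- distance estimate
  have hest : ∀ n, dist (u n) g ≤ 2 * (1 / 2 : ℝ) ^ n := by
    intro n
    refine le_of_tendsto (up_dist_tendsto U hX (u n) g) ?_
    filter_upwards [hlev n] with j hj
    have h3 : ∀ k, n + k ≤ lev j → dist (u n j) (u (n + k) j) ≤
        2 * (1 / 2 : ℝ) ^ n - 2 * (1 / 2 : ℝ) ^ (n + k) := by
      intro k
      induction k with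
      | zero => intro _; simp
      | succ k ih =>
        intro hk
        have h4 := ih (by omega)
        have h5 := hlev2 j (n + k) (by omega)
        have h6 := dist_triangle (u n j) (u (n + k) j) (u (n + (k + 1)) j)
        have h7 : (1 / 2 : ℝ) ^ (n + (k + 1)) = (1 / 2 : ℝ) ^ (n + k) / 2 := by
          rw [← add_assoc, pow_succ]; ring
        have h8 : n + k + 1 = n + (k + 1) := by ring
        rw [h8] at h5
        rw [h7]
        linarith
    obtain ⟨k, hk⟩ := Nat.exists_eq_add_of_le hj
    have h9 := h3 k (by omega)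
    have h10 : g j = u (n + k) j := by
      change u (lev j) j = _
      rw [hk]
    rw [h10]
    have : (0 : ℝ) ≤ 2 * (1 / 2 : ℝ) ^ (n + k) := by positivity
    linarith
  rw [tendsto_iff_dist_tendsto_zero]
  refine squeeze_zero (fun _ => dist_nonneg) hest ?_
  have : Tendsto (fun n : ℕ => 2 * (1 / 2 : ℝ) ^ n) atTop (𝓝 (2 * 0)) :=
    (tendsto_pow_atTop_nhds_zero_of_lt_one (by norm_num) (by norm_num)).const_mul 2
  simpa using this

end UP

end Pool.Agent.Helper666.Rand
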